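import Pool.Agent.K4H19.DQ.V3

set_option autoImplicit false
set_option linter.unusedSectionVars false

/-! # Windows between consecutive powers; the Borel-Cantelli step -/

open MeasureTheory ProbabilityTheory Filter Finset
open scoped Topology ENNReal

namespace Pool.Agent.K4H19.DQ

open Pool.Agent.K4H77.Displ

/-- the number of tuples between `a` and `b` -/
noncomputable def tupBetween (S : Set ℕ) (H : Finset ℕ) (a b : ℕ) : ℕ :=
  Set.ncard {m : ℕ | a < m ∧ m < b ∧ ∀ h ∈ H, m + h < b ∧ m + h ∈ S}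

lemma tlog : Tendsto (fun n : ℕ => Real.log n) atTop atTop :=
  Real.tendsto_log_atTop.comp tendsto_natCast_atTop_atTop

lemma pow_gap (r n : ℕ) : (r : ℝ) * (n : ℝ) ^ (r - 1) ≤ ((n : ℝ) + 1) ^ r - (n : ℝ) ^ r ∧
    ((n : ℝ) + 1) ^ r - (n : ℝ) ^ r ≤ r * ((n : ℝ) + 1) ^ (r - 1) := by
  have h1 := geom_sum₂_mul ((n : ℝ) + 1) (n : ℝ) r
  rw [add_sub_cancel_left, mul_one] at h1
  rw [← h1]
  have hn : (0 : ℝ) ≤ n := Nat.cast_nonneg n
  constructor
  · have h2 : ∑ i ∈ Finset.range r, (n : ℝ) ^ (r - 1) ≤ ∑ i ∈ Finset.range r, ((n : ℝ) + 1) ^ i * (n : ℝ) ^ (r - 1 - i) := by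
      refine Finset.sum_le_sum fun i hi => ?_
      have hi' := Finset.mem_range.1 hi
      have e1 : (n : ℝ) ^ (r - 1) = (n : ℝ) ^ i * (n : ℝ) ^ (r - 1 - i) := by
        rw [← pow_add]; congr 1; omega
      rw [e1]
      exact mul_le_mul_of_nonneg_right (pow_le_pow_left₀ hn (by linarith) _) (by positivity)
    simpa using h2
  · have h2 : ∑ i ∈ Finset.range r, ((n : ℝ) + 1) ^ i * (n : ℝ) ^ (r - 1 - i) ≤ ∑ i ∈ Finset.range r, ((n : ℝ) + 1) ^ (r - 1) := by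
      refine Finset.sum_le_sum fun i hi => ?_
      have hi' := Finset.mem_range.1 hi
      have e1 : ((n : ℝ) + 1) ^ (r - 1) = ((n : ℝ) + 1) ^ i * ((n : ℝ) + 1) ^ (r - 1 - i) := by
        rw [← pow_add]; congr 1; omega
      rw [e1]
      exact mul_le_mul_of_nonneg_left (pow_le_pow_left₀ (by positivity) (by linarith) _) (by positivity)
    simpa using h2

/-- sizes of the window between consecutive powers -/
lemma window (r : ℕ) (hr : 2 ≤ r) (B : ℕ) : ∀ᶠ n : ℕ in atTop, n ^ r + 1 + B ≤ (n + 1) ^ r ∧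
    (n : ℝ) ^ (r - 1) ≤ (((n + 1) ^ r - (n ^ r + 1 + B) : ℕ) : ℝ) ∧
    (((n + 1) ^ r - (n ^ r + 1 + B) : ℕ) : ℝ) ≤ 2 * r * (n : ℝ) ^ (r - 1) ∧
    (n + 1) ^ r ≤ 2 * n ^ r := by
  have t1 : Tendsto (fun n : ℕ => (((n : ℝ) + 1) / n) ^ r) atTop (𝓝 1) := by
    have h1 : Tendsto (fun n : ℕ => ((n : ℝ) + 1) / n) atTop (𝓝 1) := by
      have h2 : Tendsto (fun n : ℕ => 1 + 1 / (n : ℝ)) atTop (𝓝 (1 + 0)) :=
        tendsto_const_nhds.add (tendsto_const_nhds.div_atTop (tendsto_natCast_atTop_atTop (R := ℝ)))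
      rw [add_zero] at h2
      refine h2.congr' ?_
      filter_upwards [eventually_gt_atTop 0] with n hn
      have : (n : ℝ) ≠ 0 := by exact_mod_cast hn.ne'
      field_simp
    have := h1.pow r
    rwa [one_pow] at this
  filter_upwards [t1.eventually (gt_mem_nhds (show (1 : ℝ) < 2 by norm_num)), eventually_ge_atTop (B + 1)] with n hn1 hn2
  have hn0 : (0 : ℝ) < n := by exact_mod_cast (by omega : 0 < n)
  have hn3 : (1 : ℝ) ≤ n := by exact_mod_cast (by omega : 1 ≤ n)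
  have hB : (B : ℝ) + 1 ≤ n := by exact_mod_cast hn2
  have hr' : (2 : ℝ) ≤ r := by exact_mod_cast hr
  obtain ⟨g1, g2⟩ := pow_gap r n
  have hpow : (n : ℝ) ≤ (n : ℝ) ^ (r - 1) := by
    calc (n : ℝ) = (n : ℝ) ^ 1 := by ring
      _ ≤ (n : ℝ) ^ (r - 1) := pow_le_pow_right₀ hn3 (by omega)
  rw [div_pow, div_lt_iff₀ (by positivity)] at hn1
  have h4 : (n + 1) ^ r ≤ 2 * n ^ r := by
    have : ((n : ℝ) + 1) ^ r ≤ 2 * (n : ℝ) ^ r := hn1.le
    exact_mod_cast this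
  have hle' : (n : ℝ) ^ r + 1 + B ≤ ((n : ℝ) + 1) ^ r := by nlinarith
  have hle : n ^ r + 1 + B ≤ (n + 1) ^ r := by exact_mod_cast hle'
  refine ⟨hle, ?_, ?_, h4⟩
  · rw [Nat.cast_sub hle]
    push_cast
    nlinarith
  · rw [Nat.cast_sub hle]
    push_cast
    have h5 : ((n : ℝ) + 1) ^ (r - 1) ≤ 2 * (n : ℝ) ^ (r - 1) := by
      have e1 : ((n : ℝ) + 1) ^ r = ((n : ℝ) + 1) ^ (r - 1) * (n + 1) := by rw [← pow_succ]; congr 1; omega
      have e2 : (n : ℝ) ^ r = (n : ℝ) ^ (r - 1) * n := by rw [← pow_succ]; congr 1; omega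
      rw [e1, e2] at hn1
      have h6 : 0 < ((n : ℝ) + 1) ^ (r - 1) := by positivity
      have h7 : ((n : ℝ) + 1) ^ (r - 1) * n ≤ (2 * (n : ℝ) ^ (r - 1)) * n := by nlinarith
      exact le_of_mul_le_mul_right h7 hn0
    nlinarith

variable {Ω : Type*} [MeasurableSpace Ω] {w : ℕ → ℕ} {P : Measure Ω} [IsProbabilityMeasure P]
  {X : ℕ → Ω → ℕ}

/-- the count as a sum of indicators -/
lemma between_sum (H : Finset ℕ) (a b : ℕ) (hb : a + 1 + H.sup id ≤ b) (ω : Ω) :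
    (tupBetween (dset X ω) H a b : ℝ) = ∑ m ∈ Ioc a (a + (b - (a + 1 + H.sup id))), OI X H m ω := by
  classical
  unfold tupBetween
  have h1 : {m : ℕ | a < m ∧ m < b ∧ ∀ h ∈ H, m + h < b ∧ m + h ∈ dset X ω} =
      ((Ioc a (a + (b - (a + 1 + H.sup id)))).filter (fun m => ω ∈ OC X H m) : Finset ℕ) := by
    ext m
    simp only [Set.mem_ofPred_eq, Finset.coe_filter, Finset.mem_Ioc, OC]
    constructor
    · rintro ⟨h1, h2, h3⟩
      refine ⟨⟨h1, ?_⟩, fun h hh => (h3 h hh).2⟩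
      have h4 : m + H.sup id < b := by
        rcases H.eq_empty_or_nonempty with h | h
        · subst h
          simpa using h2
        · obtain ⟨c, hc, hc2⟩ := Finset.exists_mem_eq_sup H h id
          rw [hc2]
          exact (h3 c hc).1
      omega
    · rintro ⟨⟨h1, h2⟩, h3⟩
      refine ⟨h1, by omega, fun h hh => ⟨?_, h3 h hh⟩⟩
      have : h ≤ H.sup id := Finset.le_sup (f := id) hh
      omega
  rw [h1, Set.ncard_coe_finset, Finset.card_filter]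
  push_cast
  refine Finset.sum_congr rfl fun m _ => ?_
  unfold OI
  rw [Set.indicator_apply]

lemma bc_real {s : ℕ → Set Ω} {c : ℕ → ℝ} (hc : Summable c) (h : ∀ᶠ n in atTop, P.real (s n) ≤ c n) :
    ∀ᵐ ω ∂P, ∀ᶠ n in atTop, ω ∉ s n := by
  obtain ⟨N, hN⟩ := eventually_atTop.1 h
  have h1 : ∑' n, P (s (n + N)) ≠ ∞ := by
    have h2 : ∀ n, P (s (n + N)) ≤ ENNReal.ofReal (c (n + N)) := by
      intro n
      rw [← ofReal_measureReal (measure_ne_top P (s (n + N)))]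
      exact ENNReal.ofReal_le_ofReal (hN _ (by omega))
    have h3 : Summable (fun n => c (n + N)) := (summable_nat_add_iff N).2 hc
    have h4 : ∀ n, 0 ≤ c (n + N) := fun n => measureReal_nonneg.trans (hN _ (by omega))
    refine ne_top_of_le_ne_top ?_ (ENNReal.tsum_le_tsum h2)
    rw [← ENNReal.ofReal_tsum_of_nonneg h4 h3]
    exact ENNReal.ofReal_ne_top
  filter_upwards [ae_eventually_notMem h1] with ω hω
  obtain ⟨n₀, hn₀⟩ := eventually_atTop.1 hω
  refine eventually_atTop.2 ⟨n₀ + N, fun n hn => ?_⟩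
  have := hn₀ (n - N) (by omega)
  rwa [show n - N + N = n by omega] at this

/-- the Borel–Cantelli step -/
theorem bc_general (hw : ∀ n, 4 * w n ≤ n) (hX : Displaced w P X) (H : Finset ℕ) (r : ℕ) (hr : 3 ≤ r) (G : Set ℕ)
    {c₁ : ℝ} (hc₁ : 0 < c₁)
    (hmean : ∀ᶠ n : ℕ in atTop, n ∈ G → c₁ * (n : ℝ) ^ (r - 1) / Real.log n ^ H.card ≤
      ∑ m ∈ Ioc (n ^ r) (n ^ r + ((n + 1) ^ r - (n ^ r + 1 + H.sup id))), P.real (OC X H m)) :
    ∀ᵐ ω ∂P, ∀ᶠ n : ℕ in atTop, n ∈ G →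
      c₁ / 2 * (n : ℝ) ^ (r - 1) / Real.log n ^ H.card ≤ tupBetween (dset X ω) H (n ^ r) ((n + 1) ^ r) := by
  classical
  set k := H.card with hk
  set B := H.sup id with hB
  set s : ℕ → Set Ω := fun n => if n ∈ G then {ω | ∑ m ∈ Ioc (n ^ r) (n ^ r + ((n + 1) ^ r - (n ^ r + 1 + B))), OI X H m ω ≤
    (c₁ * (n : ℝ) ^ (r - 1) / Real.log n ^ k) / 2} else ∅ with hs
  have hsum : Summable (fun n : ℕ => (n : ℝ) ^ (-(3 / 2 : ℝ))) := Real.summable_nat_rpow.2 (by norm_num)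
  set K : ℝ := 4 ^ (k + 1) * (k : ℝ) ^ 2 * (2 * r) / c₁ ^ 2 with hK
  have hK0 : 0 ≤ K := by positivity
  have tl : ∀ᶠ n : ℕ in atTop, K * Real.log n ^ (2 * k) ≤ (n : ℝ) ^ (1 / 2 : ℝ) := by
    have h1 := (isLittleO_log_rpow_rpow_atTop ((2 * k : ℕ) : ℝ) (show (0 : ℝ) < 1 / 2 by norm_num)).def
      (show (0 : ℝ) < (K + 1)⁻¹ by positivity)
    have h2 := (tendsto_natCast_atTop_atTop (R := ℝ)).eventually h1
    filter_upwards [h2, eventually_ge_atTop 2] with x hx hx2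
    have hx0 : (2 : ℝ) ≤ x := by exact_mod_cast hx2
    have hl : 0 < Real.log (x : ℝ) := Real.log_pos (by linarith)
    rw [Real.rpow_natCast, Real.norm_eq_abs, Real.norm_eq_abs, abs_of_nonneg (by positivity), abs_of_nonneg (by positivity)] at hx
    rw [← div_eq_inv_mul, le_div_iff₀ (by positivity)] at hx
    nlinarith [pow_pos hl (2 * k)]
  have hb : ∀ᶠ n : ℕ in atTop, P.real (s n) ≤ (n : ℝ) ^ (-(3 / 2 : ℝ)) := by
    filter_upwards [hmean, window r (by omega) B, tl, eventually_ge_atTop 2] with n h1 h2 h3 h4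
    have hx0 : (2 : ℝ) ≤ n := by exact_mod_cast h4
    have hl : 0 < Real.log (n : ℝ) := Real.log_pos (by linarith)
    obtain ⟨w1, w2, w3, w4⟩ := h2
    simp only [hs]
    split_ifs with hG
    · have hE : 0 < c₁ * (n : ℝ) ^ (r - 1) / Real.log n ^ k := by positivity
      refine (cheb hw hX H _ hE (h1 hG)).trans ?_
      rw [Nat.card_Ioc, Nat.add_sub_cancel_left]
      have e1 : 4 ^ (k + 1) * (k : ℝ) ^ 2 * (((n + 1) ^ r - (n ^ r + 1 + B) : ℕ) : ℝ) / (c₁ * (n : ℝ) ^ (r - 1) / Real.log n ^ k) ^ 2 ≤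
          4 ^ (k + 1) * (k : ℝ) ^ 2 * (2 * r * (n : ℝ) ^ (r - 1)) / (c₁ * (n : ℝ) ^ (r - 1) / Real.log n ^ k) ^ 2 := by
        gcongr
      refine e1.trans ?_
      have e2 : 4 ^ (k + 1) * (k : ℝ) ^ 2 * (2 * r * (n : ℝ) ^ (r - 1)) / (c₁ * (n : ℝ) ^ (r - 1) / Real.log n ^ k) ^ 2 =
          K * Real.log n ^ (2 * k) / (n : ℝ) ^ (r - 1) := by
        rw [hK]
        field_simp
        ring
      rw [e2]
      have e3 : (n : ℝ) ^ 2 ≤ (n : ℝ) ^ (r - 1) := pow_le_pow_right₀ (by linarith) (by omega)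
      have e4 : K * Real.log n ^ (2 * k) / (n : ℝ) ^ (r - 1) ≤ (n : ℝ) ^ (1 / 2 : ℝ) / (n : ℝ) ^ 2 := by
        gcongr
      refine e4.trans (le_of_eq ?_)
      rw [← Real.rpow_natCast, ← Real.rpow_sub (by linarith)]
      norm_num
    · simp only [measureReal_empty]
      positivity
  filter_upwards [bc_real hsum hb] with ω hω
  filter_upwards [hω, window r (by omega) B, eventually_ge_atTop 2] with n h1 h2 h3 hG
  obtain ⟨w1, w2, w3, w4⟩ := h2
  simp only [hs, if_pos hG, Set.mem_ofPred_eq, not_le] at h1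
  rw [between_sum H _ _ w1 ω]
  refine le_trans (le_of_eq ?_) h1.le
  ring

end Pool.Agent.K4H19.DQ
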