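import Pool.Agent.K4H19.DQ.Det
import Pool.Agent.Helper601.BT
import Pool.Agent.Helper601.PNT

set_option autoImplicit false
set_option linter.unusedSectionVars false

/-! # Many windows between consecutive powers contain many primes -/

open Filter Finset
open scoped Topology

namespace Pool.Agent.K4H19.DQ

/-- the number of primes between consecutive powers -/
noncomputable def TT (r n : ℕ) : ℕ := ((Ioo (n ^ r) ((n + 1) ^ r)).filter Nat.Prime).card

lemma tt_step (r : ℕ) (hr : 2 ≤ r) (N : ℕ) :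
    ((range ((N + 1) ^ r)).filter Nat.Prime).card ≤ ((range (N ^ r)).filter Nat.Prime).card + TT r N := by
  have h1 : (range ((N + 1) ^ r)).filter Nat.Prime ⊆
      (range (N ^ r)).filter Nat.Prime ∪ (Ioo (N ^ r) ((N + 1) ^ r)).filter Nat.Prime := by
    intro p hp
    rw [Finset.mem_filter, Finset.mem_range] at hp
    rw [Finset.mem_union, Finset.mem_filter, Finset.mem_filter, Finset.mem_range, Finset.mem_Ioo]
    rcases lt_trichotomy p (N ^ r) with h | h | h
    · exact Or.inl ⟨h, hp.2⟩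
    · exfalso
      have := hp.2
      rw [h] at this
      exact Nat.Prime.not_prime_pow hr this
    · exact Or.inr ⟨⟨h, hp.1⟩, hp.2⟩
  exact (Finset.card_le_card h1).trans (Finset.card_union_le _ _)

lemma tt_sum (r : ℕ) (hr : 2 ≤ r) (N0 N : ℕ) (h : N0 ≤ N) :
    ((range (N ^ r)).filter Nat.Prime).card ≤ ((range (N0 ^ r)).filter Nat.Prime).card + ∑ n ∈ Ico N0 N, TT r n := by
  induction N, h using Nat.le_induction with
  | base => simp
  | succ N hN ih =>
    rw [Finset.sum_Ico_succ_top hN]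
    have := tt_step r hr N
    omega

/-- Brun–Titchmarsh -/
lemma tt_le (r : ℕ) (hr : 3 ≤ r) : ∃ C' : ℝ, 0 < C' ∧ ∀ᶠ n : ℕ in atTop, (TT r n : ℝ) ≤ C' * (n : ℝ) ^ (r - 1) / Real.log n := by
  obtain ⟨C, hC, h⟩ := Pool.Agent.Helper601.brun_titchmarsh
  have hrr : (1 : ℝ) ≤ r := by exact_mod_cast (by omega : 1 ≤ r)
  refine ⟨3 * r * C, by positivity, ?_⟩
  filter_upwards [window r (by omega) 0, eventually_ge_atTop 3] with n h2 h3
  obtain ⟨w1, w2, w3, -⟩ := h2
  have hn' : (3 : ℝ) ≤ n := by exact_mod_cast h3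
  have hl : 0 < Real.log (n : ℝ) := Real.log_pos (by linarith)
  set len := (n + 1) ^ r - n ^ r with hlen
  have hlen1 : (n + 1) ^ r - (n ^ r + 1 + 0) + 1 = len := by omega
  have hlenr : ((((n + 1) ^ r - (n ^ r + 1 + 0) : ℕ) : ℝ)) + 1 = len := by exact_mod_cast hlen1
  have hp1 : (n : ℝ) ≤ (n : ℝ) ^ (r - 1) := by
    calc (n : ℝ) = (n : ℝ) ^ 1 := by ring
      _ ≤ (n : ℝ) ^ (r - 1) := pow_le_pow_right₀ (by linarith) (by omega)
  have hl1 : (n : ℝ) ≤ len := by linarith
  have hl2 : (len : ℝ) ≤ 3 * r * (n : ℝ) ^ (r - 1) := by nlinarith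
  have h4 : 2 ≤ len := by
    have : (2 : ℝ) ≤ len := by linarith
    exact_mod_cast this
  have h5 := h (n ^ r) 1 len h4 (Or.inl rfl)
  have h6 : (TT r n : ℝ) ≤ (((Finset.range len).filter (fun k => (n ^ r + k * 1).Prime)).card : ℝ) := by
    have h7 : (Ioo (n ^ r) ((n + 1) ^ r)).filter Nat.Prime ⊆
        ((Finset.range len).filter (fun k => (n ^ r + k * 1).Prime)).image (fun k => n ^ r + k) := by
      intro p hp
      rw [Finset.mem_filter, Finset.mem_Ioo] at hp
      rw [Finset.mem_image]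
      refine ⟨p - n ^ r, ?_, by omega⟩
      rw [Finset.mem_filter, Finset.mem_range]
      refine ⟨by omega, ?_⟩
      rw [mul_one, show n ^ r + (p - n ^ r) = p by omega]
      exact hp.2
    have h8 := (Finset.card_le_card h7).trans Finset.card_image_le
    unfold TT
    exact_mod_cast h8
  refine h6.trans (h5.trans ?_)
  have h9 : Real.log n ≤ Real.log len := Real.log_le_log (by linarith) hl1
  have h10 : C * len / Real.log len ≤ C * len / Real.log n := div_le_div_of_nonneg_left (by positivity) hl h9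
  refine h10.trans ?_
  apply div_le_div_of_nonneg_right _ hl.le
  nlinarith

/-- prime number theorem for the number of primes below a power -/
lemma pnt_pow (r : ℕ) (hr : 3 ≤ r) : Tendsto (fun N : ℕ => (Nat.primeCounting (N ^ r) : ℝ) * (r * Real.log N) / (N : ℝ) ^ r) atTop (𝓝 1) := by
  have h1 : Tendsto (fun N : ℕ => ((N ^ r : ℕ) : ℝ)) atTop atTop :=
    (tendsto_natCast_atTop_atTop (R := ℝ)).comp (tendsto_pow_atTop (by omega))
  have h2 := Pool.Agent.Helper601.PNT.pi_tendsto.comp h1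
  refine h2.congr fun N => ?_
  simp only [Function.comp_apply]
  rw [Nat.floor_natCast]
  push_cast
  rw [Real.log_pow]

theorem density (r : ℕ) (hr : 3 ≤ r) : ∃ c κ : ℝ, 0 < c ∧ 0 < κ ∧ ∀ᶠ N : ℕ in atTop, κ * N ≤
    (((Icc 1 N).filter (fun n : ℕ => c * (n : ℝ) ^ (r - 1) / Real.log n ≤
      (((Ioo (n ^ r) ((n + 1) ^ r)).filter Nat.Prime).card : ℝ))).card : ℝ) := by
  classical
  obtain ⟨C', hC', hbt⟩ := tt_le r hr
  have hrr : (3 : ℝ) ≤ r := by exact_mod_cast hr
  have hr0 : (0 : ℝ) < r := by linarith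
  refine ⟨1 / (8 * r), 1 / (8 * r * C'), by positivity, by positivity, ?_⟩
  obtain ⟨n0, hn0⟩ := eventually_atTop.1 hbt
  have thalf : Tendsto (fun N : ℕ => N / 2) atTop atTop := Nat.tendsto_div_const_atTop (by norm_num)
  filter_upwards [(pnt_pow r hr).eventually (lt_mem_nhds (show (9 / 10 : ℝ) < 1 by norm_num)),
    (thalf.eventually ((pnt_pow r hr).eventually (gt_mem_nhds (show (1 : ℝ) < 11 / 10 by norm_num)))),
    eventually_ge_atTop (2 * n0 + 100), tlog.eventually_ge_atTop 40] with N h1 h2 h3 h4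
  set N0 := N / 2 with hN0
  have hN0N : N0 ≤ N := Nat.div_le_self _ _
  have hN0n : n0 ≤ N0 := by omega
  have hNr : (100 : ℝ) ≤ N := by exact_mod_cast (by omega : 100 ≤ N)
  have hN0r : (50 : ℝ) ≤ N0 := by exact_mod_cast (by omega : 50 ≤ N0)
  have hl : 0 < Real.log (N : ℝ) := by linarith
  set L := Real.log (N : ℝ) with hL
  have hN0le : (N0 : ℝ) ≤ N / 2 := by
    have : 2 * N0 ≤ N := by omega
    have : (2 : ℝ) * N0 ≤ N := by exact_mod_cast this
    linarith
  have hN0ge : (N : ℝ) / 4 ≤ N0 := by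
    have : N ≤ 4 * N0 := by omega
    have : (N : ℝ) ≤ 4 * N0 := by exact_mod_cast this
    linarith
  have hlogN0 : 9 / 10 * L ≤ Real.log N0 := by
    have g1 := Real.log_le_log (by positivity) hN0ge
    rw [Real.log_div (by positivity) (by norm_num)] at g1
    have g2 : Real.log 4 ≤ 4 - 1 := Real.log_le_sub_one_of_pos (by norm_num)
    linarith
  have hNp : (0 : ℝ) < (N : ℝ) ^ r := by positivity
  have hN0p : (0 : ℝ) < (N0 : ℝ) ^ r := by positivity
  rw [lt_div_iff₀ hNp] at h1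
  rw [div_lt_iff₀ hN0p] at h2
  -- total
  have htot : (N : ℝ) ^ r / (2 * r * L) ≤ ∑ n ∈ Ico N0 N, (TT r n : ℝ) := by
    have g1 := tt_sum r (by omega) N0 N hN0N
    have g2 : Nat.primeCounting (N ^ r) ≤ ((range (N ^ r)).filter Nat.Prime).card + 1 := by
      rw [Nat.primeCounting, Nat.primeCounting', Nat.count_eq_card_filter_range]
      have e0 : (range (N ^ r + 1)).filter Nat.Prime ⊆ insert (N ^ r) ((range (N ^ r)).filter Nat.Prime) := by
        intro p hp
        rw [Finset.mem_filter, Finset.mem_range] at hp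
        rw [Finset.mem_insert, Finset.mem_filter, Finset.mem_range]
        by_cases h : p = N ^ r
        · exact Or.inl h
        · exact Or.inr ⟨by omega, hp.2⟩
      exact (Finset.card_le_card e0).trans (Finset.card_insert_le _ _)
    have g3 : ((range (N0 ^ r)).filter Nat.Prime).card ≤ Nat.primeCounting (N0 ^ r) := by
      rw [Nat.primeCounting, Nat.primeCounting', Nat.count_eq_card_filter_range]
      exact Finset.card_le_card (Finset.filter_subset_filter _ (Finset.range_subset_range.2 (by omega)))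
    have g4 : (Nat.primeCounting (N ^ r) : ℝ) ≤ Nat.primeCounting (N0 ^ r) + 1 + ∑ n ∈ Ico N0 N, (TT r n : ℝ) := by
      have : Nat.primeCounting (N ^ r) ≤ Nat.primeCounting (N0 ^ r) + 1 + ∑ n ∈ Ico N0 N, TT r n := by omega
      exact_mod_cast this
    -- lower bound
    have g5 : 9 / 10 * (N : ℝ) ^ r / (r * L) ≤ Nat.primeCounting (N ^ r) := by
      rw [div_le_iff₀ (by positivity)]
      exact h1.le
    have g6 : (Nat.primeCounting (N0 ^ r) : ℝ) ≤ 2 / 10 * (N : ℝ) ^ r / (r * L) := by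
      rw [le_div_iff₀ (by positivity)]
      have g7 : (N0 : ℝ) ^ r ≤ (N : ℝ) ^ r / 8 := by
        calc (N0 : ℝ) ^ r ≤ (N / 2 : ℝ) ^ r := pow_le_pow_left₀ (by positivity) hN0le r
          _ = (N : ℝ) ^ r / 2 ^ r := by rw [div_pow]
          _ ≤ (N : ℝ) ^ r / 8 := by
            apply div_le_div_of_nonneg_left hNp.le (by norm_num)
            calc (8 : ℝ) = 2 ^ 3 := by norm_num
              _ ≤ 2 ^ r := pow_le_pow_right₀ (by norm_num) hr
      have g8 : (Nat.primeCounting (N0 ^ r) : ℝ) * (r * (9 / 10 * L)) ≤ (Nat.primeCounting (N0 ^ r) : ℝ) * (r * Real.log N0) := by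
        gcongr
      nlinarith
    have g9 : (1 : ℝ) ≤ 1 / 10 * (N : ℝ) ^ r / (r * L) := by
      rw [le_div_iff₀ (by positivity), one_mul]
      have e1 : L ≤ N := (Real.log_le_sub_one_of_pos (by linarith)).trans (by linarith)
      have e2 : (r : ℝ) ≤ 2 ^ r := by
        have : r < 2 ^ r := Nat.lt_two_pow_self
        exact_mod_cast this.le
      have e3 : (2 : ℝ) ^ r * N ≤ 1 / 10 * (N : ℝ) ^ r := by
        have e4 : (N : ℝ) ^ r = N ^ (r - 1) * N := by rw [← pow_succ]; congr 1; omega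
        have e5 : (2 : ℝ) ^ r * 10 ≤ (N : ℝ) ^ (r - 1) := by
          have e6 : (2 : ℝ) ^ r = 2 ^ (r - 1) * 2 := by rw [← pow_succ]; congr 1; omega
          have e7 : ((50 : ℝ) * 2) ^ (r - 1) ≤ (N : ℝ) ^ (r - 1) := pow_le_pow_left₀ (by norm_num) (by linarith) _
          rw [mul_pow] at e7
          have e8 : (50 : ℝ) ^ 1 ≤ 50 ^ (r - 1) := pow_le_pow_right₀ (by norm_num) (by omega)
          have e9 : (0 : ℝ) < 2 ^ (r - 1) := by positivity
          nlinarith
        rw [e4]
        nlinarith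
      have e10 : (r : ℝ) * L ≤ 2 ^ r * N := mul_le_mul e2 e1 hl.le (by positivity)
      linarith
    have g10 : 9 / 10 * (N : ℝ) ^ r / (r * L) = 2 / 10 * (N : ℝ) ^ r / (r * L) + 1 / 10 * (N : ℝ) ^ r / (r * L) +
        (6 / 10 * (N : ℝ) ^ r / (r * L)) := by ring
    have g11 : (N : ℝ) ^ r / (2 * r * L) ≤ 6 / 10 * (N : ℝ) ^ r / (r * L) := by
      have : (N : ℝ) ^ r / (2 * r * L) = 5 / 10 * (N : ℝ) ^ r / (r * L) := by
        field_simp
        norm_num
      rw [this]
      gcongr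
      norm_num
    linarith
  -- sizes of the individual terms
  have hp1 : (0 : ℝ) < (N : ℝ) ^ (r - 1) := by positivity
  have hsize : ∀ n ∈ Ico N0 N, (n : ℝ) ^ (r - 1) / Real.log n ≤ 2 * ((N : ℝ) ^ (r - 1) / L) := by
    intro n hn
    rw [Finset.mem_Ico] at hn
    have g1 : (N0 : ℝ) ≤ n := by exact_mod_cast hn.1
    have g2 : (n : ℝ) ≤ N := by exact_mod_cast hn.2.le
    have g3 : Real.log N0 ≤ Real.log n := Real.log_le_log (by linarith) g1
    have g4 : 0 < Real.log (n : ℝ) := by linarith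
    rw [div_le_iff₀ g4]
    have g5 : (n : ℝ) ^ (r - 1) ≤ (N : ℝ) ^ (r - 1) := pow_le_pow_left₀ (by positivity) g2 _
    have g6 : (N : ℝ) ^ (r - 1) / L * L = (N : ℝ) ^ (r - 1) := div_mul_cancel₀ _ hl.ne'
    have g7 : (N : ℝ) ^ (r - 1) / L * (9 / 10 * L) ≤ (N : ℝ) ^ (r - 1) / L * Real.log n :=
      mul_le_mul_of_nonneg_left (hlogN0.trans g3) (by positivity)
    nlinarith
  set Gd := (Ico N0 N).filter (fun n : ℕ => 1 / (8 * r) * (n : ℝ) ^ (r - 1) / Real.log n ≤ (TT r n : ℝ)) with hGd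
  have hsub : Gd ⊆ (Icc 1 N).filter (fun n : ℕ => 1 / (8 * (r : ℝ)) * (n : ℝ) ^ (r - 1) / Real.log n ≤
      (((Ioo (n ^ r) ((n + 1) ^ r)).filter Nat.Prime).card : ℝ)) := by
    intro n hn
    rw [hGd, Finset.mem_filter, Finset.mem_Ico] at hn
    rw [Finset.mem_filter, Finset.mem_Icc]
    exact ⟨⟨by omega, by omega⟩, hn.2⟩
  refine le_trans ?_ (Nat.cast_le.2 (Finset.card_le_card hsub))
  set Y := (N : ℝ) ^ (r - 1) / L with hY
  have hY0 : 0 < Y := by positivity
  have hup : ∑ n ∈ Ico N0 N, (TT r n : ℝ) ≤ Gd.card * (2 * C' * Y) + N * (1 / (8 * r) * (2 * Y)) := by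
    rw [← Finset.sum_filter_add_sum_filter_not (Ico N0 N) (fun n : ℕ => 1 / (8 * r) * (n : ℝ) ^ (r - 1) / Real.log n ≤ (TT r n : ℝ))]
    apply add_le_add
    · rw [← hGd, ← nsmul_eq_mul]
      refine Finset.sum_le_card_nsmul _ _ _ fun n hn => ?_
      have hn' := (Finset.mem_filter.1 hn).1
      have g1 := hn0 n (hN0n.trans (Finset.mem_Ico.1 hn').1)
      have g2 := hsize n hn'
      refine g1.trans ?_
      rw [mul_div_assoc]
      calc C' * ((n : ℝ) ^ (r - 1) / Real.log n) ≤ C' * (2 * Y) := mul_le_mul_of_nonneg_left g2 hC'.le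
        _ = _ := by ring
    · refine (Finset.sum_le_card_nsmul _ _ (1 / (8 * r) * (2 * Y)) fun n hn => ?_).trans ?_
      · obtain ⟨hn', g1⟩ := Finset.mem_filter.1 hn
        push Not at g1
        refine g1.le.trans ?_
        rw [mul_div_assoc]
        exact mul_le_mul_of_nonneg_left (hsize n hn') (by positivity)
      · rw [nsmul_eq_mul]
        apply mul_le_mul_of_nonneg_right _ (by positivity)
        have g1 := (Finset.card_filter_le (Ico N0 N) (fun n : ℕ => ¬ 1 / (8 * r) * (n : ℝ) ^ (r - 1) / Real.log n ≤ (TT r n : ℝ)))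
        rw [Nat.card_Ico] at g1
        have g2 := g1.trans (Nat.sub_le N N0)
        exact_mod_cast g2
  have hfin : (N : ℝ) ^ r / (2 * r * L) = N * (4 / (8 * r)) * Y := by
    rw [hY]
    have e4 : (N : ℝ) ^ r = N ^ (r - 1) * N := by rw [← pow_succ]; congr 1; omega
    rw [e4]
    field_simp
    norm_num
  have h5 : N * (4 / (8 * r)) * Y ≤ Gd.card * (2 * C' * Y) + N * (1 / (8 * r) * (2 * Y)) := by
    rw [← hfin]
    exact htot.trans hup
  have h6 : N * (2 / (8 * r)) * Y ≤ (Gd.card * (2 * C')) * Y := by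
    have : N * (4 / (8 * r)) * Y - N * (1 / (8 * r) * (2 * Y)) = N * (2 / (8 * r)) * Y := by ring
    linarith
  have h7 := le_of_mul_le_mul_right h6 hY0
  have h8 : 1 / (8 * r * C') * N = N * (2 / (8 * r)) / (2 * C') := by
    field_simp
  rw [h8, div_le_iff₀ (by positivity)]
  exact h7

end Pool.Agent.K4H19.DQ
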