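import Pool.Agent.K4H19.DQ.V5
import Pool.Agent.K4H19.DQ.V6

set_option autoImplicit false
set_option linter.unusedSectionVars false

/-! # Quadruplets -/

open MeasureTheory ProbabilityTheory Filter Finset
open scoped Topology ENNReal

namespace Pool.Agent.K4H19.DQ

open Pool.Agent.K4H77.Displ

/-- there is a quadruplet of elements of `S` between `n ^ 5` and `(n + 1) ^ 5` -/
def Quad (S : Set ℕ) (n : ℕ) : Prop := ∃ m : ℕ, n ^ 5 < m ∧ m + 8 < (n + 1) ^ 5 ∧ m ∈ S ∧ m + 2 ∈ S ∧ m + 6 ∈ S ∧ m + 8 ∈ S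

lemma quad_of_pos {S : Set ℕ} {n : ℕ} (h : 0 < tupBetween S {0, 2, 6, 8} (n ^ 5) ((n + 1) ^ 5)) : Quad S n := by
  unfold tupBetween at h
  obtain ⟨m, h1, -, h3⟩ := Set.nonempty_of_ncard_ne_zero h.ne'
  have g0 := h3 0 (by simp)
  have g2 := h3 2 (by simp)
  have g6 := h3 6 (by simp)
  have g8 := h3 8 (by simp)
  exact ⟨m, h1, g8.1, g0.2, g2.2, g6.2, g8.2⟩

lemma quad_card : ({0, 2, 6, 8} : Finset ℕ).card = 4 := by decide

lemma quad_of_le {S : Set ℕ} {n : ℕ} {c : ℝ} (hc : 0 < c) (hn : 2 ≤ n) {j k : ℕ}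
    (h : c * (n : ℝ) ^ j / Real.log n ^ k ≤ tupBetween S {0, 2, 6, 8} (n ^ 5) ((n + 1) ^ 5)) : Quad S n := by
  apply quad_of_pos
  have hn' : (2 : ℝ) ≤ n := by exact_mod_cast hn
  have hl : 0 < Real.log (n : ℝ) := Real.log_pos (by linarith)
  have h1 : (0 : ℝ) < tupBetween S {0, 2, 6, 8} (n ^ 5) ((n + 1) ^ 5) := lt_of_lt_of_le (by positivity) h
  exact_mod_cast h1

open Classical in
/-- from almost every good window to a positive lower density -/
lemma dens_of {S : Set ℕ} {G : Set ℕ} {κ : ℝ} (hκ : 0 < κ) (hG : ∀ᶠ N : ℕ in atTop, κ * N ≤ (((Icc 1 N).filter (fun n => n ∈ G)).card : ℝ))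
    (h : ∀ᶠ n : ℕ in atTop, n ∈ G → Quad S n) :
    ∀ᶠ N : ℕ in atTop, κ / 2 * N ≤ (((Icc 1 N).filter (fun n => Quad S n)).card : ℝ) := by
  obtain ⟨n1, hn1⟩ := eventually_atTop.1 h
  have t : Tendsto (fun N : ℕ => κ / 2 * (N : ℝ)) atTop atTop :=
    Tendsto.const_mul_atTop (by positivity) (tendsto_natCast_atTop_atTop (R := ℝ))
  filter_upwards [hG, t.eventually_ge_atTop (n1 : ℝ)] with N h1 h2
  have h3 : (Icc 1 N).filter (fun n => n ∈ G) ⊆ (Icc 1 N).filter (fun n => Quad S n) ∪ range n1 := by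
    intro n hn
    rw [Finset.mem_filter] at hn
    rw [Finset.mem_union, Finset.mem_filter, Finset.mem_range]
    rcases lt_or_ge n n1 with g | g
    · exact Or.inr g
    · exact Or.inl ⟨hn.1, hn1 n g hn.2⟩
  have h4 := (Finset.card_le_card h3).trans (Finset.card_union_le _ _)
  rw [Finset.card_range] at h4
  have h5 : (((Icc 1 N).filter (fun n => n ∈ G)).card : ℝ) ≤ (((Icc 1 N).filter (fun n => Quad S n)).card : ℝ) + n1 := by
    exact_mod_cast h4
  linarith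

end Pool.Agent.K4H19.DQ
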