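import Mathlib
import Pool.Agent.K4H77.DA

set_option autoImplicit false
set_option linter.unusedSectionVars false

/-! # The number of tuples of displaced primes in a window: the second moment -/

open MeasureTheory ProbabilityTheory Filter Finset

namespace Pool.Agent.K4H19.DQ

open Pool.Agent.K4H77.Displ

variable {Ω : Type*} [MeasurableSpace Ω] {w : ℕ → ℕ} {P : Measure Ω} [IsProbabilityMeasure P]
  {X : ℕ → Ω → ℕ}

/-- translates -/
def sft (B : Finset ℕ) (m : ℕ) : Finset ℕ := B.image (fun h => m + h)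

lemma mem_sft {B : Finset ℕ} {m u : ℕ} : u ∈ sft B m ↔ ∃ h ∈ B, m + h = u := by
  unfold sft
  rw [Finset.mem_image]

/-- indicator of a missed set -/
noncomputable def MI (X : ℕ → Ω → ℕ) (B : Finset ℕ) (m : ℕ) (ω : Ω) : ℝ :=
  (miss X (sft B m)).indicator (fun _ => (1 : ℝ)) ω

/-- centred indicator -/
noncomputable def CI (P : Measure Ω) (X : ℕ → Ω → ℕ) (B : Finset ℕ) (m : ℕ) (ω : Ω) : ℝ :=
  MI X B m ω - P.real (miss X (sft B m))

lemma MI_int (hw : ∀ n, 4 * w n ≤ n) (hX : Displaced w P X) (B : Finset ℕ) (m : ℕ) :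
    Integrable (MI X B m) P := (integrable_const (1 : ℝ)).indicator (miss_meas hw hX _)

lemma MI_mean (hw : ∀ n, 4 * w n ≤ n) (hX : Displaced w P X) (B : Finset ℕ) (m : ℕ) :
    ∫ ω, MI X B m ω ∂P = P.real (miss X (sft B m)) := by
  unfold MI
  rw [integral_indicator_const _ (miss_meas hw hX _)]
  simp

lemma MI_mul (B : Finset ℕ) (m m' : ℕ) (ω : Ω) :
    MI X B m ω * MI X B m' ω = (miss X (sft B m) ∩ miss X (sft B m')).indicator (fun _ => (1 : ℝ)) ω := by
  unfold MI
  rw [← Set.inter_indicator_mul]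
  simp

lemma MI_mul_int (hw : ∀ n, 4 * w n ≤ n) (hX : Displaced w P X) (B : Finset ℕ) (m m' : ℕ) :
    Integrable (fun ω => MI X B m ω * MI X B m' ω) P := by
  simp_rw [MI_mul]
  exact (integrable_const (1 : ℝ)).indicator ((miss_meas hw hX _).inter (miss_meas hw hX _))

lemma CI_mul (B : Finset ℕ) (m m' : ℕ) (ω : Ω) :
    CI P X B m ω * CI P X B m' ω = MI X B m ω * MI X B m' ω - P.real (miss X (sft B m')) * MI X B m ω -
      P.real (miss X (sft B m)) * MI X B m' ω + P.real (miss X (sft B m)) * P.real (miss X (sft B m')) := by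
  unfold CI
  ring

lemma CI_mul_int (hw : ∀ n, 4 * w n ≤ n) (hX : Displaced w P X) (B : Finset ℕ) (m m' : ℕ) :
    Integrable (fun ω => CI P X B m ω * CI P X B m' ω) P := by
  simp_rw [CI_mul]
  exact (((MI_mul_int hw hX B m m').sub ((MI_int hw hX B m).const_mul _)).sub
    ((MI_int hw hX B m').const_mul _)).add (integrable_const _)

lemma CI_cov (hw : ∀ n, 4 * w n ≤ n) (hX : Displaced w P X) (B : Finset ℕ) (m m' : ℕ) :
    ∫ ω, CI P X B m ω * CI P X B m' ω ∂P =
      P.real (miss X (sft B m) ∩ miss X (sft B m')) - P.real (miss X (sft B m)) * P.real (miss X (sft B m')) := by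
  simp_rw [CI_mul]
  rw [integral_add, integral_sub, integral_sub, integral_const_mul, integral_const_mul, MI_mean hw hX, MI_mean hw hX]
  · simp_rw [MI_mul]
    rw [integral_indicator_const _ ((miss_meas hw hX _).inter (miss_meas hw hX _))]
    simp
    ring
  · exact MI_mul_int hw hX B m m'
  · exact (MI_int hw hX B m).const_mul _
  · exact (MI_mul_int hw hX B m m').sub ((MI_int hw hX B m).const_mul _)
  · exact (MI_int hw hX B m').const_mul _
  · exact ((MI_mul_int hw hX B m m').sub ((MI_int hw hX B m).const_mul _)).sub ((MI_int hw hX B m').const_mul _)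
  · exact integrable_const _

open Classical in
lemma overlap_card (B V : Finset ℕ) (m : ℕ) :
    (V.filter (fun m' => ¬ Disjoint (sft B m) (sft B m'))).card ≤ B.card ^ 2 := by
  have h1 : V.filter (fun m' => ¬ Disjoint (sft B m) (sft B m')) ⊆ (B ×ˢ B).image (fun x => m + x.1 - x.2) := by
    intro m' hm'
    obtain ⟨-, h2⟩ := Finset.mem_filter.1 hm'
    rw [Finset.not_disjoint_iff] at h2
    obtain ⟨u, hu1, hu2⟩ := h2
    obtain ⟨h, hh, e1⟩ := mem_sft.1 hu1
    obtain ⟨h', hh', e2⟩ := mem_sft.1 hu2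
    rw [Finset.mem_image]
    exact ⟨(h, h'), Finset.mem_product.2 ⟨hh, hh'⟩, by simp only; omega⟩
  refine (Finset.card_le_card h1).trans (Finset.card_image_le.trans (le_of_eq ?_))
  rw [Finset.card_product, sq]

lemma var_Y (hw : ∀ n, 4 * w n ≤ n) (hX : Displaced w P X) (B V : Finset ℕ) :
    ∫ ω, (∑ m ∈ V, CI P X B m ω) ^ 2 ∂P ≤ V.card * (B.card : ℝ) ^ 2 := by
  classical
  have h1 : (fun ω => (∑ m ∈ V, CI P X B m ω) ^ 2) = fun ω => ∑ m ∈ V, ∑ m' ∈ V, CI P X B m ω * CI P X B m' ω := by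
    funext ω
    rw [sq, Finset.sum_mul_sum]
  rw [h1, integral_finsetSum _ (fun m _ => integrable_finsetSum _ fun m' _ => CI_mul_int hw hX B m m')]
  have h2 : ∀ m ∈ V, ∫ ω, ∑ m' ∈ V, CI P X B m ω * CI P X B m' ω ∂P ≤ (B.card : ℝ) ^ 2 := by
    intro m _
    rw [integral_finsetSum _ (fun m' _ => CI_mul_int hw hX B m m')]
    have h3 : ∀ m' ∈ V, ∫ ω, CI P X B m ω * CI P X B m' ω ∂P ≤ if ¬ Disjoint (sft B m) (sft B m') then (1 : ℝ) else 0 := by
      intro m' _
      rw [CI_cov hw hX]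
      by_cases h : Disjoint (sft B m) (sft B m')
      · rw [if_neg (not_not.2 h)]
        linarith [neg_corr hw hX h]
      · rw [if_pos h]
        have h4 : P.real (miss X (sft B m) ∩ miss X (sft B m')) ≤ 1 := measureReal_le_one
        have h5 : 0 ≤ P.real (miss X (sft B m)) * P.real (miss X (sft B m')) := mul_nonneg measureReal_nonneg measureReal_nonneg
        linarith
    refine (Finset.sum_le_sum h3).trans ?_
    rw [← Finset.sum_filter, Finset.sum_const, nsmul_eq_mul, mul_one]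
    exact_mod_cast overlap_card B V m
  refine (Finset.sum_le_sum h2).trans (le_of_eq ?_)
  rw [Finset.sum_const, nsmul_eq_mul]

/-- all elements of the pattern are present -/
def OC (X : ℕ → Ω → ℕ) (H : Finset ℕ) (m : ℕ) : Set Ω := {ω | ∀ h ∈ H, m + h ∈ dset X ω}

lemma OC_eq (H : Finset ℕ) (m : ℕ) : OC X H m = ⋂ h ∈ H, (miss X {m + h})ᶜ := by
  ext ω
  simp only [OC, Set.mem_ofPred_eq, Set.mem_iInter, Set.mem_compl_iff]
  refine forall₂_congr fun h _ => ?_
  unfold miss dset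
  simp only [Set.mem_ofPred_eq, Finset.mem_singleton]
  push Not
  rfl

lemma OC_meas (hw : ∀ n, 4 * w n ≤ n) (hX : Displaced w P X) (H : Finset ℕ) (m : ℕ) : MeasurableSet (OC X H m) := by
  rw [OC_eq]
  exact Finset.measurableSet_biInter _ fun h _ => (miss_meas hw hX _).compl

/-- indicator of an occupied tuple -/
noncomputable def OI (X : ℕ → Ω → ℕ) (H : Finset ℕ) (m : ℕ) (ω : Ω) : ℝ := (OC X H m).indicator (fun _ => (1 : ℝ)) ω

lemma MI_prod (B : Finset ℕ) (m : ℕ) (ω : Ω) : MI X B m ω = ∏ h ∈ B, (miss X {m + h}).indicator (fun _ => (1 : ℝ)) ω := by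
  classical
  unfold MI
  by_cases hω : ω ∈ miss X (sft B m)
  · rw [Set.indicator_of_mem hω]
    symm
    refine Finset.prod_eq_one fun h hh => Set.indicator_of_mem ?_ _
    intro p hp hcon
    rw [Finset.mem_singleton] at hcon
    exact hω p hp (mem_sft.2 ⟨h, hh, hcon.symm⟩)
  · rw [Set.indicator_of_notMem hω]
    symm
    simp only [miss, Set.mem_ofPred_eq] at hω
    push Not at hω
    obtain ⟨p, hp, hu⟩ := hω
    obtain ⟨h, hh, e⟩ := mem_sft.1 hu
    refine Finset.prod_eq_zero hh (Set.indicator_of_notMem ?_ _)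
    intro hcon
    exact hcon p hp (Finset.mem_singleton.2 e.symm)

lemma OI_expand (H : Finset ℕ) (m : ℕ) (ω : Ω) :
    OI X H m ω = ∑ B ∈ H.powerset, (-1 : ℝ) ^ B.card * MI X B m ω := by
  classical
  have h1 : OI X H m ω = ∏ h ∈ H, (-(miss X {m + h}).indicator (fun _ => (1 : ℝ)) ω + 1) := by
    unfold OI
    rw [OC_eq]
    by_cases hω : ω ∈ ⋂ h ∈ H, (miss X {m + h})ᶜ
    · rw [Set.indicator_of_mem hω]
      symm
      refine Finset.prod_eq_one fun h hh => ?_
      have h2 : ω ∉ miss X {m + h} := by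
        simp only [Set.mem_iInter, Set.mem_compl_iff] at hω
        exact hω h hh
      rw [Set.indicator_of_notMem h2]
      norm_num
    · rw [Set.indicator_of_notMem hω]
      symm
      simp only [Set.mem_iInter, Set.mem_compl_iff] at hω
      push Not at hω
      obtain ⟨h, hh, h2⟩ := hω
      refine Finset.prod_eq_zero hh ?_
      rw [Set.indicator_of_mem h2]
      norm_num
  rw [h1, Finset.prod_add]
  refine Finset.sum_congr rfl fun B _ => ?_
  rw [Finset.prod_const_one, mul_one, MI_prod, Finset.prod_neg]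

lemma OI_mean (hw : ∀ n, 4 * w n ≤ n) (hX : Displaced w P X) (H : Finset ℕ) (m : ℕ) :
    P.real (OC X H m) = ∑ B ∈ H.powerset, (-1 : ℝ) ^ B.card * P.real (miss X (sft B m)) := by
  have h1 : ∫ ω, OI X H m ω ∂P = P.real (OC X H m) := by
    unfold OI
    rw [integral_indicator_const _ (OC_meas hw hX H m)]
    simp
  rw [← h1]
  simp_rw [OI_expand]
  rw [integral_finsetSum _ fun B _ => (MI_int hw hX B m).const_mul _]
  refine Finset.sum_congr rfl fun B _ => ?_
  rw [integral_const_mul, MI_mean hw hX]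

lemma OI_centre (hw : ∀ n, 4 * w n ≤ n) (hX : Displaced w P X) (H V : Finset ℕ) (ω : Ω) :
    ∑ m ∈ V, OI X H m ω - ∑ m ∈ V, P.real (OC X H m) = ∑ B ∈ H.powerset, (-1 : ℝ) ^ B.card * ∑ m ∈ V, CI P X B m ω := by
  rw [← Finset.sum_sub_distrib]
  have h1 : ∀ m ∈ V, OI X H m ω - P.real (OC X H m) = ∑ B ∈ H.powerset, (-1 : ℝ) ^ B.card * CI P X B m ω := by
    intro m _
    rw [OI_expand, OI_mean hw hX, ← Finset.sum_sub_distrib]
    refine Finset.sum_congr rfl fun B _ => ?_
    unfold CI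
    ring
  rw [Finset.sum_congr rfl h1, Finset.sum_comm]
  refine Finset.sum_congr rfl fun B _ => ?_
  rw [Finset.mul_sum]

/-- the variance of the number of tuples -/
theorem var_N (hw : ∀ n, 4 * w n ≤ n) (hX : Displaced w P X) (H V : Finset ℕ) :
    ∫ ω, (∑ m ∈ V, OI X H m ω - ∑ m ∈ V, P.real (OC X H m)) ^ 2 ∂P ≤ 4 ^ H.card * (H.card : ℝ) ^ 2 * V.card := by
  classical
  have hsqint : ∀ B : Finset ℕ, Integrable (fun ω => (∑ m ∈ V, CI P X B m ω) ^ 2) P := by
    intro B
    have h1 : (fun ω => (∑ m ∈ V, CI P X B m ω) ^ 2) = fun ω => ∑ m ∈ V, ∑ m' ∈ V, CI P X B m ω * CI P X B m' ω := by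
      funext ω
      rw [sq, Finset.sum_mul_sum]
    rw [h1]
    exact integrable_finsetSum _ fun m _ => integrable_finsetSum _ fun m' _ => CI_mul_int hw hX B m m'
  have h1 : ∀ ω, (∑ m ∈ V, OI X H m ω - ∑ m ∈ V, P.real (OC X H m)) ^ 2 ≤
      2 ^ H.card * ∑ B ∈ H.powerset, (∑ m ∈ V, CI P X B m ω) ^ 2 := by
    intro ω
    rw [OI_centre hw hX]
    have h2 := sq_sum_le_card_mul_sum_sq (s := H.powerset) (f := fun B => (-1 : ℝ) ^ B.card * ∑ m ∈ V, CI P X B m ω)
    rw [Finset.card_powerset] at h2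
    push_cast at h2
    refine h2.trans (le_of_eq ?_)
    congr 1
    refine Finset.sum_congr rfl fun B _ => ?_
    rw [mul_pow, ← pow_mul, mul_comm B.card 2, pow_mul]
    norm_num
  have hint : Integrable (fun ω => 2 ^ H.card * ∑ B ∈ H.powerset, (∑ m ∈ V, CI P X B m ω) ^ 2) P :=
    (integrable_finsetSum _ fun B _ => hsqint B).const_mul _
  refine (integral_mono_of_nonneg (Eventually.of_forall fun ω => sq_nonneg _) hint (Eventually.of_forall h1)).trans ?_
  rw [integral_const_mul, integral_finsetSum _ fun B _ => hsqint B]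
  have h3 : ∀ B ∈ H.powerset, ∫ ω, (∑ m ∈ V, CI P X B m ω) ^ 2 ∂P ≤ V.card * (H.card : ℝ) ^ 2 := by
    intro B hB
    refine (var_Y hw hX B V).trans ?_
    have h4 : (B.card : ℝ) ≤ H.card := by exact_mod_cast Finset.card_le_card (Finset.mem_powerset.1 hB)
    exact mul_le_mul_of_nonneg_left (pow_le_pow_left₀ (Nat.cast_nonneg _) h4 2) (Nat.cast_nonneg _)
  have h5 := Finset.sum_le_sum h3
  rw [Finset.sum_const, nsmul_eq_mul, Finset.card_powerset] at h5
  push_cast at h5
  refine (mul_le_mul_of_nonneg_left h5 (by positivity)).trans (le_of_eq ?_)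
  rw [show (4 : ℝ) = 2 * 2 by norm_num, mul_pow]
  ring

/-- Chebyshev's inequality -/
theorem cheb (hw : ∀ n, 4 * w n ≤ n) (hX : Displaced w P X) (H V : Finset ℕ) {E : ℝ} (hE : 0 < E)
    (hmean : E ≤ ∑ m ∈ V, P.real (OC X H m)) :
    P.real {ω | ∑ m ∈ V, OI X H m ω ≤ E / 2} ≤ 4 ^ (H.card + 1) * (H.card : ℝ) ^ 2 * V.card / E ^ 2 := by
  have hOm : ∀ m, Measurable (OI X H m) := fun m => measurable_const.indicator (OC_meas hw hX H m)
  have hOb : ∀ m ω, 0 ≤ OI X H m ω ∧ OI X H m ω ≤ 1 := fun m ω =>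
    ⟨Set.indicator_nonneg (fun _ _ => zero_le_one) _, Set.indicator_le_self' (fun _ _ => zero_le_one) _⟩
  have hint : Integrable (fun ω => (∑ m ∈ V, OI X H m ω - ∑ m ∈ V, P.real (OC X H m)) ^ 2) P := by
    refine Integrable.of_bound (((Finset.measurable_sum _ fun m _ => hOm m).sub_const _).pow_const 2).aestronglyMeasurable
      ((V.card + V.card : ℝ) ^ 2) (Eventually.of_forall fun ω => ?_)
    rw [Real.norm_eq_abs, abs_of_nonneg (sq_nonneg _), ← sq_abs]
    refine pow_le_pow_left₀ (abs_nonneg _) ?_ 2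
    refine (abs_sub _ _).trans (add_le_add ?_ ?_)
    · rw [abs_of_nonneg (Finset.sum_nonneg fun m _ => (hOb m ω).1)]
      refine (Finset.sum_le_sum fun m _ => (hOb m ω).2).trans (le_of_eq (by simp))
    · rw [abs_of_nonneg (Finset.sum_nonneg fun m _ => measureReal_nonneg)]
      refine (Finset.sum_le_sum fun m _ => measureReal_le_one).trans (le_of_eq (by simp))
  have h1 := mul_meas_ge_le_integral_of_nonneg (μ := P)
    (f := fun ω => (∑ m ∈ V, OI X H m ω - ∑ m ∈ V, P.real (OC X H m)) ^ 2)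
    (Eventually.of_forall fun ω => sq_nonneg _) hint ((E / 2) ^ 2)
  have h2 : {ω | ∑ m ∈ V, OI X H m ω ≤ E / 2} ⊆
      {ω | (E / 2) ^ 2 ≤ (∑ m ∈ V, OI X H m ω - ∑ m ∈ V, P.real (OC X H m)) ^ 2} := by
    intro ω hω
    simp only [Set.mem_ofPred_eq] at hω ⊢
    nlinarith
  have h3 := measureReal_mono (μ := P) h2
  have h4 := h1.trans (var_N hw hX H V)
  rw [le_div_iff₀ (by positivity)]
  have h5 : (E / 2) ^ 2 * P.real {ω | ∑ m ∈ V, OI X H m ω ≤ E / 2} ≤ 4 ^ H.card * (H.card : ℝ) ^ 2 * V.card :=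
    (mul_le_mul_of_nonneg_left h3 (by positivity)).trans h4
  have h6 : (4 : ℝ) ^ (H.card + 1) = 4 * 4 ^ H.card := by ring
  rw [h6]
  nlinarith

end Pool.Agent.K4H19.DQ
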