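import Pool.Agent.K4H19.DQ.V1

set_option autoImplicit false
set_option linter.unusedSectionVars false

/-! # Lower bound for the probability that a tuple is occupied -/

open MeasureTheory ProbabilityTheory Filter Finset

namespace Pool.Agent.K4H19.DQ

open Pool.Agent.K4H77.Displ

variable {Ω : Type*} [MeasurableSpace Ω] {w : ℕ → ℕ} {P : Measure Ω} [IsProbabilityMeasure P]
  {X : ℕ → Ω → ℕ}

/-- every element of `U` is the new position of some element of `G` -/
def Hit (X : ℕ → Ω → ℕ) (G U : Finset ℕ) : Set Ω := {ω | ∀ u ∈ U, ∃ p ∈ G, X p ω = u}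

lemma Hit_pre (G U : Finset ℕ) :
    Hit X G U = (fun ω (i : G) => X i ω) ⁻¹' {f : G → ℕ | ∀ u ∈ U, ∃ p : G, f p = u} := by
  ext ω
  simp only [Hit, Set.mem_ofPred_eq, Set.mem_preimage]
  refine forall₂_congr fun u _ => ?_
  constructor
  · rintro ⟨p, hp, e⟩
    exact ⟨⟨p, hp⟩, e⟩
  · rintro ⟨⟨p, hp⟩, e⟩
    exact ⟨p, hp, e⟩

lemma hit_indep (hX : Displaced w P X) {G Q : Finset ℕ} (U V : Finset ℕ) (h : Disjoint G Q) :
    P.real (Hit X G U ∩ Hit X Q V) = P.real (Hit X G U) * P.real (Hit X Q V) := by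
  have h1 := hX.indep.indepFun_finset G Q h hX.meas
  rw [Hit_pre G U, Hit_pre Q V]
  have h2 := h1.measure_inter_preimage_eq_mul {f : G → ℕ | ∀ u ∈ U, ∃ p : G, f p = u}
    {f : Q → ℕ | ∀ u ∈ V, ∃ p : Q, f p = u} (Set.to_countable _).measurableSet (Set.to_countable _).measurableSet
  rw [Measure.real, h2, ENNReal.toReal_mul]
  rfl

lemma hit_one (hw : ∀ n, 4 * w n ≤ n) (hX : Displaced w P X) {x : ℝ} (G : Finset ℕ) (u : ℕ)
    (hu : ∀ p ∈ G, u ∈ Icc (p - w p) (p + w p)) (hx : ∀ p ∈ G, x ≤ 1 / (2 * w p + 1)) :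
    1 - (1 - x) ^ G.card ≤ P.real (Hit X G {u}) := by
  have h1 : (Hit X G {u})ᶜ = ⋂ p ∈ G, X p ⁻¹' (({u} : Finset ℕ) : Set ℕ)ᶜ := by
    ext ω
    simp only [Hit, Set.mem_compl_iff, Set.mem_ofPred_eq, Finset.mem_singleton, forall_eq, Set.mem_iInter,
      Set.mem_preimage, Finset.mem_coe]
    push Not
    rfl
  have h2 : P.real (Hit X G {u})ᶜ = ∏ p ∈ G, (1 - pr w p {u}) := by
    rw [h1, Measure.real, hX.indep.measure_inter_preimage_eq_mul _ (fun p _ => (({u} : Finset ℕ)).measurableSet.compl),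
      ENNReal.toReal_prod]
    exact Finset.prod_congr rfl fun p _ => prob_out hw hX p {u}
  have h3 : P.real (Hit X G {u}) = 1 - P.real (Hit X G {u})ᶜ := by
    have hm : MeasurableSet (Hit X G {u})ᶜ := by
      rw [h1]
      exact Finset.measurableSet_biInter _ fun p _ => (hX.meas p) (({u} : Finset ℕ)).measurableSet.compl
    rw [probReal_compl_eq_one_sub hm.of_compl]
    ring
  have h4 : ∏ p ∈ G, (1 - pr w p {u}) ≤ (1 - x) ^ G.card := by
    rw [← Finset.prod_const]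
    refine Finset.prod_le_prod (fun p _ => ?_) fun p hp => ?_
    · have := pr_le_one hw p {u}
      linarith
    · have h5 : pr w p {u} = 1 / (2 * w p + 1) := by
        unfold pr
        rw [Finset.inter_eq_left.2 (Finset.singleton_subset_iff.2 (hu p hp)), Finset.card_singleton]
        norm_num
      rw [h5]
      linarith [hx p hp]
  rw [h3, h2]
  linarith

theorem hit_ge (hw : ∀ n, 4 * w n ≤ n) (hX : Displaced w P X) {x : ℝ} (hx0 : 0 ≤ x) (hx1 : x ≤ 1) (q : ℕ) (U : Finset ℕ) :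
    ∀ G : Finset ℕ, (∀ p ∈ G, ∀ u ∈ U, u ∈ Icc (p - w p) (p + w p)) → (∀ p ∈ G, x ≤ 1 / (2 * w p + 1)) →
      U.card * q ≤ G.card → (1 - (1 - x) ^ q) ^ U.card ≤ P.real (Hit X G U) := by
  classical
  have ht0 : 0 ≤ 1 - (1 - x) ^ q := by
    have : (1 - x) ^ q ≤ 1 := pow_le_one₀ (by linarith) (by linarith)
    linarith
  induction U using Finset.induction_on with
  | empty =>
    intro G _ _ _
    have h1 : Hit X G ∅ = Set.univ := by
      ext ω
      simp [Hit]
    rw [h1, Finset.card_empty, pow_zero]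
    simp
  | insert u U hu ih =>
    intro G hG1 hG2 hG3
    rw [Finset.card_insert_of_notMem hu] at hG3 ⊢
    obtain ⟨Q, hQG, hQc⟩ := Finset.exists_subset_card_eq (show q ≤ G.card by nlinarith)
    have h1 := ih (G \ Q) (fun p hp v hv => hG1 p (Finset.mem_sdiff.1 hp).1 v (Finset.mem_insert_of_mem hv))
      (fun p hp => hG2 p (Finset.mem_sdiff.1 hp).1) (by
        rw [Finset.card_sdiff_of_subset hQG, hQc]
        have : (U.card + 1) * q = U.card * q + q := by ring
        omega)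
    have h2 := hit_one hw hX Q u (fun p hp => hG1 p (hQG hp) u (Finset.mem_insert_self _ _))
      (fun p hp => hG2 p (hQG hp))
    rw [hQc] at h2
    have h3 : Hit X Q {u} ∩ Hit X (G \ Q) U ⊆ Hit X G (insert u U) := by
      rintro ω ⟨h4, h5⟩ v hv
      rcases Finset.mem_insert.1 hv with h | h
      · obtain ⟨p, hp, e⟩ := h4 u (Finset.mem_singleton_self u)
        exact ⟨p, hQG hp, by rw [h]; exact e⟩
      · obtain ⟨p, hp, e⟩ := h5 v h
        exact ⟨p, (Finset.mem_sdiff.1 hp).1, e⟩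
    calc (1 - (1 - x) ^ q) ^ (U.card + 1) = (1 - (1 - x) ^ q) * (1 - (1 - x) ^ q) ^ U.card := by ring
      _ ≤ P.real (Hit X Q {u}) * P.real (Hit X (G \ Q) U) := mul_le_mul h2 h1 (pow_nonneg ht0 _) measureReal_nonneg
      _ = P.real (Hit X Q {u} ∩ Hit X (G \ Q) U) := (hit_indep hX {u} U (Finset.disjoint_sdiff)).symm
      _ ≤ _ := measureReal_mono h3

lemma sft_card (H : Finset ℕ) (m : ℕ) : (sft H m).card = H.card :=
  Finset.card_image_of_injective _ fun a b h => by simpa using h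

lemma t_ge {x : ℝ} (hx0 : 0 ≤ x) (hx1 : x ≤ 1) (q : ℕ) (hq : x * q ≤ 1) : x * q / 2 ≤ 1 - (1 - x) ^ q := by
  have h1 : (1 - x) ^ q ≤ Real.exp (-(x * q)) := by
    have h2 : 1 - x ≤ Real.exp (-x) := by have := Real.add_one_le_exp (-x); linarith
    calc (1 - x) ^ q ≤ Real.exp (-x) ^ q := pow_le_pow_left₀ (by linarith) h2 _
      _ = _ := by rw [← Real.exp_nat_mul]; congr 1; ring
  have h0 : 0 ≤ x * q := by positivity
  have h2 : Real.exp (-(x * q)) ≤ 1 - x * q / 2 := by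
    have h3 := Real.add_one_le_exp (x * q)
    have h4 : Real.exp (-(x * q)) * Real.exp (x * q) = 1 := by rw [← Real.exp_add, neg_add_cancel, Real.exp_zero]
    have h5 := Real.exp_pos (-(x * q))
    have h6 : Real.exp (-(x * q)) * (x * q + 1) ≤ 1 := (mul_le_mul_of_nonneg_left h3 h5.le).trans h4.le
    have h7 : 1 ≤ (1 - x * q / 2) * (x * q + 1) := by nlinarith
    have h8 : Real.exp (-(x * q)) * (x * q + 1) ≤ (1 - x * q / 2) * (x * q + 1) := h6.trans h7
    exact le_of_mul_le_mul_right h8 (by linarith)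
  linarith

/-- lower bound for the probability of an occupied tuple -/
theorem OC_ge (hw : ∀ n, 4 * w n ≤ n) (hX : Displaced w P X) {x : ℝ} (hx0 : 0 ≤ x) (hx1 : x ≤ 1) (H : Finset ℕ) (m : ℕ)
    (G : Finset ℕ) (hGp : ∀ p ∈ G, p.Prime) (hG1 : ∀ p ∈ G, ∀ h ∈ H, m + h ∈ Icc (p - w p) (p + w p))
    (hG2 : ∀ p ∈ G, x ≤ 1 / (2 * w p + 1)) (q : ℕ) (hq : x * q ≤ 1) (hGq : H.card * q ≤ G.card) :
    (x * q / 2) ^ H.card ≤ P.real (OC X H m) := by
  have h1 := hit_ge hw hX hx0 hx1 q (sft H m) G (by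
    intro p hp u hu
    obtain ⟨h, hh, rfl⟩ := mem_sft.1 hu
    exact hG1 p hp h hh) hG2 (by rw [sft_card]; exact hGq)
  rw [sft_card] at h1
  have h2 : Hit X G (sft H m) ⊆ OC X H m := by
    intro ω hω h hh
    obtain ⟨p, hp, e⟩ := hω (m + h) (mem_sft.2 ⟨h, hh, rfl⟩)
    exact ⟨p, hGp p hp, e⟩
  refine le_trans ?_ (h1.trans (measureReal_mono h2))
  exact pow_le_pow_left₀ (by positivity) (t_ge hx0 hx1 q hq) _

end Pool.Agent.K4H19.DQ
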