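import Pool.Agent.K4H19.DQ.V2

set_option autoImplicit false
set_option linter.unusedSectionVars false

/-! # Lower bounds for the expected number of tuples in a window -/

open MeasureTheory ProbabilityTheory Filter Finset

namespace Pool.Agent.K4H19.DQ

open Pool.Agent.K4H77.Displ

variable {Ω : Type*} [MeasurableSpace Ω] {w : ℕ → ℕ} {P : Measure Ω} [IsProbabilityMeasure P]
  {X : ℕ → Ω → ℕ}

/-- every window near the primes -/
theorem mean_all (hw : ∀ n, 4 * w n ≤ n) (hX : Displaced w P X) (H : Finset ℕ) (hH : H.Nonempty) (y M a b g : ℕ)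
    (hnear : ∀ p, y < p → p ≤ y + M + b → b ≤ w p ∧ w p ≤ a) (hB : H.sup id ≤ b)
    (hg : ∀ m ∈ Ioc y (y + M), g ≤ ((Ioc m (m + b)).filter Nat.Prime).card) :
    M * (1 / (2 * a + 1 : ℝ) * (g / H.card : ℕ) / 2) ^ H.card ≤ ∑ m ∈ Ioc y (y + M), P.real (OC X H m) := by
  have hk : 0 < H.card := Finset.card_pos.2 hH
  have hx0 : (0 : ℝ) ≤ 1 / (2 * a + 1 : ℝ) := by positivity
  have hx1 : 1 / (2 * a + 1 : ℝ) ≤ 1 := by
    rw [div_le_one (by positivity)]
    have : (0 : ℝ) ≤ a := Nat.cast_nonneg a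
    linarith
  have h1 : ∀ m ∈ Ioc y (y + M), (1 / (2 * a + 1 : ℝ) * (g / H.card : ℕ) / 2) ^ H.card ≤ P.real (OC X H m) := by
    intro m hm
    have hm' := Finset.mem_Ioc.1 hm
    have hGg := hg m hm
    refine OC_ge hw hX hx0 hx1 H m ((Ioc m (m + b)).filter Nat.Prime) (fun p hp => (Finset.mem_filter.1 hp).2) ?_ ?_
      (g / H.card) ?_ ?_
    · intro p hp h hh
      have hp' := Finset.mem_Ioc.1 (Finset.mem_filter.1 hp).1
      obtain ⟨n1, n2⟩ := hnear p (by omega) (by omega)
      have hhB : h ≤ H.sup id := Finset.le_sup (f := id) hh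
      rw [Finset.mem_Icc]
      omega
    · intro p hp
      have hp' := Finset.mem_Ioc.1 (Finset.mem_filter.1 hp).1
      obtain ⟨n1, n2⟩ := hnear p (by omega) (by omega)
      have n2' : (w p : ℝ) ≤ a := by exact_mod_cast n2
      exact one_div_le_one_div_of_le (by positivity) (by linarith)
    · have e1 : g / H.card ≤ b := by
        refine (Nat.div_le_self _ _).trans (hGg.trans ((Finset.card_filter_le _ _).trans ?_))
        rw [Nat.card_Ioc]
        omega
      have e2 : b ≤ a := by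
        obtain ⟨n1, n2⟩ := hnear m (by omega) (by omega)
        omega
      have e3 : ((g / H.card : ℕ) : ℝ) ≤ 2 * a + 1 := by
        have : ((g / H.card : ℕ) : ℝ) ≤ a := by exact_mod_cast e1.trans e2
        have : (0 : ℝ) ≤ a := Nat.cast_nonneg a
        linarith
      rw [one_div, inv_mul_le_iff₀ (by positivity), mul_one]
      exact e3
    · refine le_trans ?_ hGg
      rw [mul_comm]
      exact Nat.div_mul_le_self g H.card
  have h2 := Finset.sum_le_sum h1
  rw [Finset.sum_const, Nat.card_Ioc, nsmul_eq_mul] at h2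
  refine le_trans (le_of_eq ?_) h2
  rw [show y + M - y = M by omega]

/-- the average over a window containing many primes -/
theorem mean_avg (hw : ∀ n, 4 * w n ≤ n) (hX : Displaced w P X) (H : Finset ℕ) (hH : H.Nonempty) (y M a b : ℕ)
    (hnear : ∀ p, y < p → p ≤ y + M → b ≤ w p ∧ w p ≤ a) (hB : H.sup id ≤ b) (hM : 1 ≤ M) {Z : ℝ} (hZ0 : 0 ≤ Z)
    (hZ : Z ≤ 1 / (2 * a + 1 : ℝ) / 2 * (((((Ioc y (y + M)).filter Nat.Prime).card : ℝ) - 2 * a) * b / H.card - M)) :
    Z ^ H.card / M ^ (H.card - 1) ≤ ∑ m ∈ Ioc y (y + M), P.real (OC X H m) := by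
  classical
  have hk : 0 < H.card := Finset.card_pos.2 hH
  set B := H.sup id with hBdef
  set V := Ioc y (y + M) with hV
  set R := V.filter Nat.Prime with hR
  have hx0 : (0 : ℝ) ≤ 1 / (2 * a + 1 : ℝ) := by positivity
  have hx1 : 1 / (2 * a + 1 : ℝ) ≤ 1 := by
    rw [div_le_one (by positivity)]
    have : (0 : ℝ) ≤ a := Nat.cast_nonneg a
    linarith
  set G : ℕ → Finset ℕ := fun m => R.filter (fun p => p - w p ≤ m ∧ m + B ≤ p + w p) with hG
  have hmemR : ∀ p ∈ R, (y < p ∧ p ≤ y + M) ∧ p.Prime := by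
    intro p hp
    rw [hR, Finset.mem_filter, hV, Finset.mem_Ioc] at hp
    exact hp
  have hGc : ∀ m, (G m).card ≤ 2 * a + 1 := by
    intro m
    have h1 : G m ⊆ Icc (m - a) (m + a) := by
      intro p hp
      obtain ⟨hp1, hp2, hp3⟩ := Finset.mem_filter.1 hp
      obtain ⟨⟨hp4, hp5⟩, -⟩ := hmemR p hp1
      obtain ⟨n1, n2⟩ := hnear p hp4 hp5
      rw [Finset.mem_Icc]
      omega
    refine (Finset.card_le_card h1).trans ?_
    rw [Nat.card_Icc]
    omega
  have h1 : ∀ m ∈ V, (1 / (2 * a + 1 : ℝ) * ((G m).card / H.card : ℕ) / 2) ^ H.card ≤ P.real (OC X H m) := by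
    intro m _
    refine OC_ge hw hX hx0 hx1 H m (G m) (fun p hp => (hmemR p (Finset.mem_filter.1 hp).1).2) ?_ ?_
      ((G m).card / H.card) ?_ ?_
    · intro p hp h hh
      obtain ⟨hp1, hp2, hp3⟩ := Finset.mem_filter.1 hp
      have hhB : h ≤ B := Finset.le_sup (f := id) hh
      rw [Finset.mem_Icc]
      omega
    · intro p hp
      obtain ⟨hp1, hp2, hp3⟩ := Finset.mem_filter.1 hp
      obtain ⟨⟨hp4, hp5⟩, -⟩ := hmemR p hp1
      obtain ⟨n1, n2⟩ := hnear p hp4 hp5
      have n2' : (w p : ℝ) ≤ a := by exact_mod_cast n2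
      exact one_div_le_one_div_of_le (by positivity) (by linarith)
    · have e3 : (((G m).card / H.card : ℕ) : ℝ) ≤ 2 * a + 1 := by
        exact_mod_cast (Nat.div_le_self _ _).trans (hGc m)
      rw [one_div, inv_mul_le_iff₀ (by positivity), mul_one]
      exact e3
    · rw [mul_comm]
      exact Nat.div_mul_le_self _ _
  refine le_trans ?_ (Finset.sum_le_sum h1)
  -- power mean
  obtain ⟨j, hj⟩ : ∃ j, H.card = j + 1 := ⟨H.card - 1, by omega⟩
  have hpm := pow_sum_div_card_le_sum_pow (s := V) (f := fun m => 1 / (2 * a + 1 : ℝ) * ((G m).card / H.card : ℕ) / 2)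
    (n := j) (fun m _ => by positivity)
  rw [← hj] at hpm
  refine le_trans ?_ hpm
  have hVc : (V.card : ℝ) = M := by
    rw [hV, Nat.card_Ioc]
    rw [show y + M - y = M by omega]
  rw [hVc, show H.card - 1 = j by omega]
  apply div_le_div_of_nonneg_right _ (by positivity)
  apply pow_le_pow_left₀ hZ0
  refine hZ.trans ?_
  -- the sum of the numbers of near primes
  have hkr : (0 : ℝ) < H.card := by exact_mod_cast hk
  have hsumG : (((R.card : ℝ) - 2 * a) * b) ≤ ∑ m ∈ V, ((G m).card : ℝ) := by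
    set R' := R.filter (fun p => y + a < p ∧ p + a ≤ y + M) with hR'
    have hR'c : (R.card : ℝ) - 2 * a ≤ R'.card := by
      have e1 : R ⊆ R' ∪ (Ioc y (y + a) ∪ Ioc (y + M - a) (y + M)) := by
        intro p hp
        obtain ⟨⟨hp4, hp5⟩, -⟩ := hmemR p hp
        rw [Finset.mem_union, Finset.mem_union, Finset.mem_Ioc, Finset.mem_Ioc, hR', Finset.mem_filter]
        by_cases h1 : y + a < p
        · by_cases h2 : p + a ≤ y + M
          · exact Or.inl ⟨hp, h1, h2⟩
          · right; right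
            omega
        · right; left
          omega
      have e2 := (Finset.card_le_card e1).trans ((Finset.card_union_le _ _).trans (Nat.add_le_add_left (Finset.card_union_le _ _) _))
      rw [Nat.card_Ioc, Nat.card_Ioc] at e2
      have e3 : R.card ≤ R'.card + 2 * a := by omega
      have e4 : (R.card : ℝ) ≤ R'.card + 2 * a := by exact_mod_cast e3
      linarith
    have e5 : ∑ m ∈ V, (G m).card = ∑ p ∈ R, (V.filter (fun m => p - w p ≤ m ∧ m + B ≤ p + w p)).card := by
      simp only [hG, Finset.card_filter]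
      exact Finset.sum_comm
    have e6 : R'.card * b ≤ ∑ m ∈ V, (G m).card := by
      rw [e5]
      have e7 : ∀ p ∈ R', b ≤ (V.filter (fun m => p - w p ≤ m ∧ m + B ≤ p + w p)).card := by
        intro p hp
        obtain ⟨hp1, hp2, hp3⟩ := Finset.mem_filter.1 hp
        obtain ⟨⟨hp4, hp5⟩, -⟩ := hmemR p hp1
        obtain ⟨n1, n2⟩ := hnear p hp4 hp5
        have e8 : Icc (p - w p) (p + w p - B) ⊆ V.filter (fun m => p - w p ≤ m ∧ m + B ≤ p + w p) := by
          intro m hm
          rw [Finset.mem_Icc] at hm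
          rw [Finset.mem_filter, hV, Finset.mem_Ioc]
          omega
        refine le_trans ?_ (Finset.card_le_card e8)
        rw [Nat.card_Icc]
        omega
      have e9 := Finset.card_nsmul_le_sum R' _ b e7
      rw [smul_eq_mul] at e9
      exact e9.trans (Finset.sum_le_sum_of_subset (Finset.filter_subset _ _))
    have e10 : ((R'.card : ℝ) * b) ≤ ∑ m ∈ V, ((G m).card : ℝ) := by exact_mod_cast e6
    refine le_trans ?_ e10
    exact mul_le_mul_of_nonneg_right hR'c (Nat.cast_nonneg b)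
  have hq : ∀ m ∈ V, ((G m).card : ℝ) / H.card - 1 ≤ (((G m).card / H.card : ℕ) : ℝ) := by
    intro m _
    have e1 : (G m).card < ((G m).card / H.card + 1) * H.card := by
      have := Nat.lt_mul_div_succ (G m).card hk
      rw [mul_comm]
      exact this
    have e2 : ((G m).card : ℝ) ≤ (((G m).card / H.card : ℕ) + 1 : ℝ) * H.card := by exact_mod_cast e1.le
    rw [sub_le_iff_le_add, div_le_iff₀ hkr]
    exact e2
  have hsum2 := Finset.sum_le_sum hq
  rw [Finset.sum_sub_distrib, ← Finset.sum_div, Finset.sum_const, nsmul_eq_mul, mul_one, hVc] at hsum2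
  have e11 : ∑ m ∈ V, 1 / (2 * a + 1 : ℝ) * ((G m).card / H.card : ℕ) / 2 =
      1 / (2 * a + 1 : ℝ) / 2 * ∑ m ∈ V, (((G m).card / H.card : ℕ) : ℝ) := by
    rw [Finset.mul_sum]
    refine Finset.sum_congr rfl fun m _ => ?_
    ring
  rw [e11]
  apply mul_le_mul_of_nonneg_left _ (by positivity)
  refine le_trans ?_ hsum2
  have e12 := div_le_div_of_nonneg_right hsumG hkr.le
  linarith

end Pool.Agent.K4H19.DQ
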