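import Pool.Agent.K4H19.DQ.Det
import Pool.Agent.K4H77.DG

set_option autoImplicit false
set_option linter.unusedSectionVars false

/-! # The mean number of tuples between consecutive powers -/

open MeasureTheory ProbabilityTheory Filter Finset
open scoped Topology ENNReal

namespace Pool.Agent.K4H19.DQ

open Pool.Agent.K4H77.Displ

/-- `w m` and `w n` are comparable for `n ≤ m ≤ 4 n` -/
def Comp (w : ℕ → ℕ) (C : ℝ) : Prop := 1 ≤ C ∧ ∀ᶠ n : ℕ in atTop, ∀ m : ℕ, n ≤ m → m ≤ 4 * n →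
  (w m : ℝ) ≤ C * w n ∧ (w n : ℝ) ≤ C * w m

lemma near {w : ℕ → ℕ} {C : ℝ} (h : Comp w C) : ∀ᶠ y : ℕ in atTop, ∀ p : ℕ, y ≤ 2 * p → p ≤ 4 * y →
    ⌈(w y : ℝ) / C⌉₊ ≤ w p ∧ w p ≤ ⌊C * w y⌋₊ := by
  obtain ⟨hC, h⟩ := h
  have hC0 : 0 < C := by linarith
  obtain ⟨n0, hn0⟩ := eventually_atTop.1 h
  filter_upwards [eventually_ge_atTop (2 * n0)] with y hy p hp1 hp2
  have key : (w p : ℝ) ≤ C * w y ∧ (w y : ℝ) ≤ C * w p := by
    rcases le_total y p with h1 | h1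
    · exact hn0 y (by omega) p h1 hp2
    · exact (hn0 p (by omega) y h1 (by omega)).symm
  constructor
  · rw [Nat.ceil_le, div_le_iff₀ hC0]
    linarith [key.2]
  · exact Nat.le_floor key.1

variable {Ω : Type*} [MeasurableSpace Ω] {w : ℕ → ℕ} {P : Measure Ω} [IsProbabilityMeasure P]
  {X : ℕ → Ω → ℕ}

lemma pow_top (r : ℕ) (hr : 3 ≤ r) : Tendsto (fun n : ℕ => n ^ r) atTop atTop := tendsto_pow_atTop (by omega)

/-- `w (n ^ r) / log n → ∞` -/
lemma w_log (r : ℕ) (hr : 3 ≤ r) (hwlog : Tendsto (fun n : ℕ => (w n : ℝ) / Real.log n) atTop atTop) :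
    Tendsto (fun n : ℕ => (w (n ^ r) : ℝ) / Real.log n) atTop atTop := by
  have h1 := hwlog.comp (pow_top r hr)
  refine tendsto_atTop_mono' _ ?_ h1
  filter_upwards [eventually_ge_atTop 2] with n hn
  have hn' : (2 : ℝ) ≤ n := by exact_mod_cast hn
  have hl : 0 < Real.log (n : ℝ) := Real.log_pos (by linarith)
  simp only [Function.comp_apply]
  push_cast
  rw [Real.log_pow]
  have hr' : (1 : ℝ) ≤ r := by exact_mod_cast (by omega : 1 ≤ r)
  exact div_le_div_of_nonneg_left (Nat.cast_nonneg _) hl (by nlinarith)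

lemma card_Ioo_le (y z B : ℕ) (h : y + 1 + B ≤ z) :
    ((Ioo y z).filter Nat.Prime).card ≤ ((Ioc y (y + (z - (y + 1 + B)))).filter Nat.Prime).card + B := by
  have h1 : (Ioo y z).filter Nat.Prime ⊆ (Ioc y (y + (z - (y + 1 + B)))).filter Nat.Prime ∪
      Ioc (y + (z - (y + 1 + B))) (y + (z - (y + 1 + B)) + B) := by
    intro p hp
    rw [Finset.mem_filter, Finset.mem_Ioo] at hp
    rw [Finset.mem_union, Finset.mem_filter, Finset.mem_Ioc, Finset.mem_Ioc]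
    by_cases h2 : p ≤ y + (z - (y + 1 + B))
    · exact Or.inl ⟨⟨hp.1.1, h2⟩, hp.2⟩
    · right
      omega
  refine (Finset.card_le_card h1).trans ((Finset.card_union_le _ _).trans ?_)
  rw [Nat.card_Ioc]
  omega

/-- many primes between the powers -/
theorem mean_I (hw : ∀ n, 4 * w n ≤ n) (hX : Displaced w P X) {C : ℝ} (hC : Comp w C)
    (hwlog : Tendsto (fun n : ℕ => (w n : ℝ) / Real.log n) atTop atTop) (H : Finset ℕ) (hH : H.Nonempty) (r : ℕ) (hr : 3 ≤ r)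
    (hsmall : Tendsto (fun n : ℕ => (w (n ^ r) : ℝ) * Real.log n / (n : ℝ) ^ (r - 1)) atTop (𝓝 0)) {c : ℝ} (hc : 0 < c) :
    ∀ᶠ n : ℕ in atTop, n ∈ {n : ℕ | c * (n : ℝ) ^ (r - 1) / Real.log n ≤ (((Ioo (n ^ r) ((n + 1) ^ r)).filter Nat.Prime).card : ℝ)} →
      ((c / (24 * C ^ 2 * H.card)) ^ H.card / (2 * r) ^ (H.card - 1)) * (n : ℝ) ^ (r - 1) / Real.log n ^ H.card ≤
      ∑ m ∈ Ioc (n ^ r) (n ^ r + ((n + 1) ^ r - (n ^ r + 1 + H.sup id))), P.real (OC X H m) := by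
  set k := H.card with hk
  set B := H.sup id with hB
  have hk0 : 0 < k := Finset.card_pos.2 hH
  have hkr : (0 : ℝ) < k := by exact_mod_cast hk0
  have hrr : (0 : ℝ) < r := by exact_mod_cast (by omega : 0 < r)
  have hC1 := hC.1
  have hC0 : 0 < C := by linarith
  filter_upwards [(pow_top r hr).eventually (near hC), window r (by omega) B, eventually_ge_atTop 3,
    (w_log r hr hwlog).eventually_ge_atTop (8 * r * C * k / c), (w_log r hr hwlog).eventually_ge_atTop (C * B + 1),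
    hsmall.eventually (gt_mem_nhds (show (0 : ℝ) < c / (2 * (2 * C + 1)) by positivity)), tlog.eventually_ge_atTop 1]
    with n hnear h2 h3 h4 h5 h6 h7 hG
  replace hG : c * (n : ℝ) ^ (r - 1) / Real.log n ≤ (((Ioo (n ^ r) ((n + 1) ^ r)).filter Nat.Prime).card : ℝ) := hG
  obtain ⟨w1, w2, w3, w4⟩ := h2
  have hn' : (3 : ℝ) ≤ n := by exact_mod_cast h3
  have hl : 0 < Real.log (n : ℝ) := by linarith
  set y := n ^ r with hy
  set M := (n + 1) ^ r - (y + 1 + B) with hM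
  set a := ⌊C * w y⌋₊ with ha
  set b := ⌈(w y : ℝ) / C⌉₊ with hb
  set L := Real.log (n : ℝ) with hL
  have hp0 : (0 : ℝ) < (n : ℝ) ^ (r - 1) := by positivity
  have hM1 : 1 ≤ M := by
    have h8 : (1 : ℝ) ≤ (n : ℝ) ^ (r - 1) := one_le_pow₀ (by linarith)
    exact_mod_cast h8.trans w2
  have hMr : (0 : ℝ) < M := by exact_mod_cast hM1
  rw [le_div_iff₀ hl] at h4 h5
  have hwy : C * B + 1 ≤ w y := by nlinarith [mul_nonneg hC0.le (Nat.cast_nonneg (α := ℝ) B)]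
  have hwy1 : (1 : ℝ) ≤ w y := by nlinarith [mul_nonneg hC0.le (Nat.cast_nonneg (α := ℝ) B)]
  have ha' : (a : ℝ) ≤ C * w y := Nat.floor_le (by positivity)
  have hb' : (w y : ℝ) / C ≤ b := Nat.le_ceil _
  have hBb : B ≤ b := by
    have : (B : ℝ) ≤ (w y : ℝ) / C := by
      rw [le_div_iff₀ hC0]
      linarith
    exact_mod_cast this.trans hb'
  rw [div_lt_iff₀ hp0] at h6
  have hcard : (((Ioo y ((n + 1) ^ r)).filter Nat.Prime).card : ℝ) ≤ (((Ioc y (y + M)).filter Nat.Prime).card : ℝ) + B := by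
    exact_mod_cast card_Ioo_le y ((n + 1) ^ r) B w1
  set R : ℝ := (((Ioc y (y + M)).filter Nat.Prime).card : ℝ) with hR
  have hBw : (B : ℝ) ≤ w y := by nlinarith [mul_nonneg (sub_nonneg.2 hC1) (Nat.cast_nonneg (α := ℝ) B)]
  have e1 : c / 2 * (n : ℝ) ^ (r - 1) / L ≤ R - 2 * a := by
    have g1 : (2 * C + 1) * w y ≤ c / 2 * (n : ℝ) ^ (r - 1) / L := by
      rw [le_div_iff₀ hl]
      have g2 : w y * L * (2 * C + 1) ≤ c / (2 * (2 * C + 1)) * (n : ℝ) ^ (r - 1) * (2 * C + 1) :=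
        mul_le_mul_of_nonneg_right h6.le (by positivity)
      have g3 : c / (2 * (2 * C + 1)) * (n : ℝ) ^ (r - 1) * (2 * C + 1) = c / 2 * (n : ℝ) ^ (r - 1) := by
        field_simp
      linarith
    have g4 : c * (n : ℝ) ^ (r - 1) / L = c / 2 * (n : ℝ) ^ (r - 1) / L + c / 2 * (n : ℝ) ^ (r - 1) / L := by ring
    linarith
  have e2 : c / (4 * C * k) * (n : ℝ) ^ (r - 1) * w y / L ≤ (R - 2 * a) * b / k - M := by
    have g1 : c / 2 * (n : ℝ) ^ (r - 1) / L * ((w y : ℝ) / C) / k ≤ (R - 2 * a) * b / k := by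
      apply div_le_div_of_nonneg_right _ hkr.le
      exact mul_le_mul e1 hb' (by positivity) (le_trans (by positivity) e1)
    have g2 : (M : ℝ) ≤ c / (4 * C * k) * (n : ℝ) ^ (r - 1) * w y / L := by
      refine w3.trans ?_
      rw [le_div_iff₀ hl]
      have g3 : 8 * r * C * k / c * L * (c / (4 * C * k) * (n : ℝ) ^ (r - 1)) ≤ w y * (c / (4 * C * k) * (n : ℝ) ^ (r - 1)) :=
        mul_le_mul_of_nonneg_right h4 (by positivity)
      have g4 : 8 * r * C * k / c * L * (c / (4 * C * k) * (n : ℝ) ^ (r - 1)) = 2 * r * (n : ℝ) ^ (r - 1) * L := by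
        field_simp
        ring
      linarith
    have g5 : c / 2 * (n : ℝ) ^ (r - 1) / L * ((w y : ℝ) / C) / k =
        c / (4 * C * k) * (n : ℝ) ^ (r - 1) * w y / L + c / (4 * C * k) * (n : ℝ) ^ (r - 1) * w y / L := by
      field_simp
      ring
    linarith
  set Z := c / (24 * C ^ 2 * k) * (n : ℝ) ^ (r - 1) / L with hZ
  have hZle : Z ≤ 1 / (2 * a + 1 : ℝ) / 2 * ((R - 2 * a) * b / k - M) := by
    have g1 : 1 / (3 * C * w y) ≤ 1 / (2 * a + 1 : ℝ) := by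
      apply one_div_le_one_div_of_le (by positivity)
      nlinarith
    have g2 : 1 / (3 * C * w y) / 2 * (c / (4 * C * k) * (n : ℝ) ^ (r - 1) * w y / L) = Z := by
      rw [hZ]
      field_simp
      ring
    rw [← g2]
    exact mul_le_mul (div_le_div_of_nonneg_right g1 (by norm_num)) e2 (by positivity) (by positivity)
  have hmain := mean_avg hw hX H hH y M a b (fun p hp1 hp2 => hnear p (by omega) (by omega)) hBb hM1
    (Z := Z) (by positivity) hZle
  rw [← hk] at hmain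
  refine le_trans ?_ hmain
  obtain ⟨j, hj⟩ : ∃ j, k = j + 1 := ⟨k - 1, by omega⟩
  have g6 : Z ^ k / (2 * r * (n : ℝ) ^ (r - 1)) ^ (k - 1) ≤ Z ^ k / (M : ℝ) ^ (k - 1) := by
    gcongr
  refine le_trans (le_of_eq ?_) g6
  have g7 : ∀ (α ρ p l : ℝ), ρ ≠ 0 → p ≠ 0 → l ≠ 0 →
      α ^ (j + 1) / ρ ^ j * p / l ^ (j + 1) = (α * p / l) ^ (j + 1) / (ρ * p) ^ j := by
    intro α ρ p l hρ hp hl
    rw [div_pow, mul_pow, mul_pow, pow_succ p]
    field_simp
  have g8 := g7 (c / (24 * C ^ 2 * k)) (2 * r) ((n : ℝ) ^ (r - 1)) L (by positivity) hp0.ne' hl.ne'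
  rw [hZ, show k - 1 = j by omega, show k = j + 1 from hj]
  rw [← hj] at g8 ⊢
  exact g8

end Pool.Agent.K4H19.DQ
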