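import Pool.Agent.K4H19.DQ.V4

set_option autoImplicit false
set_option linter.unusedSectionVars false

/-! # Large displacements; almost sure statements -/

open MeasureTheory ProbabilityTheory Filter Finset
open scoped Topology ENNReal

namespace Pool.Agent.K4H19.DQ

open Pool.Agent.K4H77.Displ

variable {Ω : Type*} [MeasurableSpace Ω] {w : ℕ → ℕ} {P : Measure Ω} [IsProbabilityMeasure P]
  {X : ℕ → Ω → ℕ}

/-- all windows contain many primes at the scale of the displacement -/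
theorem mean_III : ∃ δ η : ℝ, 0 < δ ∧ δ < 1 ∧ 0 < η ∧
    ∀ {Ω : Type} [MeasurableSpace Ω] {w : ℕ → ℕ} {P : Measure Ω} [IsProbabilityMeasure P] {X : ℕ → Ω → ℕ}
      (_ : ∀ n, 4 * w n ≤ n) (_ : Displaced w P X) {C : ℝ} (_ : Comp w C)
      (_ : ∀ᶠ n : ℕ in atTop, (n : ℝ) ^ (1 - δ) ≤ w n) (H : Finset ℕ) (_ : H.Nonempty) (r : ℕ) (_ : 3 ≤ r),
    ∀ᶠ n : ℕ in atTop,
      ((η / (24 * C ^ 2 * H.card * r)) ^ H.card) * (n : ℝ) ^ (r - 1) / Real.log n ^ H.card ≤
      ∑ m ∈ Ioc (n ^ r) (n ^ r + ((n + 1) ^ r - (n ^ r + 1 + H.sup id))), P.real (OC X H m) := by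
  obtain ⟨δ', η, hδ, hδ1, hη, X₀, hX₀, hh⟩ := Pool.Agent.H295R3.D.hoheisel
  refine ⟨δ' / 2, η, by linarith, by linarith, hη, ?_⟩
  intro Ω _ w P _ X hw hX C hC hbig H hH r hr
  set k := H.card with hk
  set B := H.sup id with hB
  have hk0 : 0 < k := Finset.card_pos.2 hH
  have hkr : (0 : ℝ) < k := by exact_mod_cast hk0
  have hrr : (0 : ℝ) < r := by exact_mod_cast (by omega : 0 < r)
  have hC1 := hC.1
  have hC0 : 0 < C := by linarith
  -- the displacement is larger than a multiple of the logarithm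
  have hlogw : ∀ K : ℝ, ∀ᶠ y : ℕ in atTop, K * Real.log y ≤ w y := by
    intro K
    have h1 := (isLittleO_log_rpow_atTop (show (0 : ℝ) < 1 - δ' / 2 by linarith)).def (show (0 : ℝ) < (|K| + 1)⁻¹ by positivity)
    filter_upwards [(tendsto_natCast_atTop_atTop (R := ℝ)).eventually h1, hbig, eventually_ge_atTop 2] with y g1 g2 g3
    have hy' : (2 : ℝ) ≤ y := by exact_mod_cast g3
    have hl : 0 < Real.log (y : ℝ) := Real.log_pos (by linarith)
    have hp : (0 : ℝ) ≤ (y : ℝ) ^ (1 - δ' / 2) := by positivity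
    rw [Real.norm_eq_abs, Real.norm_eq_abs, abs_of_pos hl, abs_of_nonneg hp, ← div_eq_inv_mul,
      le_div_iff₀ (by positivity)] at g1
    have g4 : K * Real.log y ≤ |K| * Real.log y := mul_le_mul_of_nonneg_right (le_abs_self K) hl.le
    nlinarith
  have hpow : ∀ᶠ y : ℕ in atTop, 2 * C * (y : ℝ) ^ (1 - δ') ≤ (y : ℝ) ^ (1 - δ' / 2) := by
    have h1 : Tendsto (fun y : ℕ => (y : ℝ) ^ (δ' / 2)) atTop atTop :=
      (tendsto_rpow_atTop (by linarith)).comp (tendsto_natCast_atTop_atTop (R := ℝ))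
    filter_upwards [h1.eventually_ge_atTop (2 * C), eventually_ge_atTop 1] with y g1 g2
    have hy' : (0 : ℝ) < y := by exact_mod_cast (by omega : 0 < y)
    have e1 : (y : ℝ) ^ (1 - δ' / 2) = (y : ℝ) ^ (δ' / 2) * (y : ℝ) ^ (1 - δ') := by
      rw [← Real.rpow_add hy']
      congr 1
      ring
    rw [e1]
    exact mul_le_mul_of_nonneg_right g1 (by positivity)
  filter_upwards [(pow_top r hr).eventually (near hC), window r (by omega) B, eventually_ge_atTop (X₀ + 3),
    (pow_top r hr).eventually (hlogw (8 * C * (k + 1) / η)), (pow_top r hr).eventually (hlogw (C * B + 1)),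
    (pow_top r hr).eventually hpow, tlog.eventually_ge_atTop 1, (pow_top r hr).eventually hbig]
    with n hnear h2 h3 h4 h5 h6 h7 h8
  obtain ⟨w1, w2, w3, w4⟩ := h2
  have hn' : (3 : ℝ) ≤ n := by exact_mod_cast (by omega : 3 ≤ n)
  have hl : 0 < Real.log (n : ℝ) := by linarith
  have hlogy : Real.log ((n ^ r : ℕ) : ℝ) = r * Real.log n := by push_cast; rw [Real.log_pow]
  rw [hlogy] at h4 h5
  set y := n ^ r with hy
  set M := (n + 1) ^ r - (y + 1 + B) with hM
  set a := ⌊C * w y⌋₊ with ha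
  set b := ⌈(w y : ℝ) / C⌉₊ with hb
  set L := Real.log (n : ℝ) with hL
  have hny : n ≤ y := Nat.le_self_pow (by omega) n
  have hny' : (n : ℝ) ≤ y := by exact_mod_cast hny
  have hr1 : (1 : ℝ) ≤ r := by exact_mod_cast (by omega : 1 ≤ r)
  have hrL : 1 ≤ r * L := by nlinarith
  have hCB : 0 ≤ C * B := by positivity
  have hwy : C * B + 1 ≤ w y := by nlinarith
  have hwy1 : (1 : ℝ) ≤ w y := by linarith
  have ha' : (a : ℝ) ≤ C * w y := Nat.floor_le (by positivity)
  have hb' : (w y : ℝ) / C ≤ b := Nat.le_ceil _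
  have hBb : B ≤ b := by
    have : (B : ℝ) ≤ (w y : ℝ) / C := by
      rw [le_div_iff₀ hC0]
      linarith
    exact_mod_cast this.trans hb'
  have hby : 4 * b ≤ y := by
    have := (hnear y (by omega) (by omega)).1
    have := hw y
    omega
  have hbpos : (0 : ℝ) < b := lt_of_lt_of_le (by positivity) hb'
  set g := ⌊η * b / (2 * (r * L))⌋₊ with hg
  have hgle : ∀ m ∈ Ioc y (y + M), g ≤ ((Ioc m (m + b)).filter Nat.Prime).card := by
    intro m hm
    have hm' := Finset.mem_Ioc.1 hm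
    have hm2 : m ≤ 2 * y := by omega
    have hmr : (m : ℝ) ≤ 2 * y := by exact_mod_cast hm2
    have hmy : (y : ℝ) ≤ m := by exact_mod_cast hm'.1.le
    have hy0 : (0 : ℝ) < y := by linarith
    have hm0 : (0 : ℝ) < m := by linarith
    have hh1 := hh m b (by omega) (by
      have g1 : (m : ℝ) ^ (1 - δ') ≤ 2 * (y : ℝ) ^ (1 - δ') := by
        calc (m : ℝ) ^ (1 - δ') ≤ (2 * (y : ℝ)) ^ (1 - δ') := Real.rpow_le_rpow hm0.le hmr (by linarith)
          _ = 2 ^ (1 - δ') * (y : ℝ) ^ (1 - δ') := Real.mul_rpow (by norm_num) hy0.le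
          _ ≤ 2 * (y : ℝ) ^ (1 - δ') := by
            apply mul_le_mul_of_nonneg_right _ (by positivity)
            calc (2 : ℝ) ^ (1 - δ') ≤ 2 ^ (1 : ℝ) := Real.rpow_le_rpow_of_exponent_le (by norm_num) (by linarith)
              _ = 2 := Real.rpow_one 2
      refine g1.trans (le_trans ?_ hb')
      rw [le_div_iff₀ hC0]
      calc 2 * (y : ℝ) ^ (1 - δ') * C = 2 * C * (y : ℝ) ^ (1 - δ') := by ring
        _ ≤ _ := h6.trans h8) (by omega)
    have hlm : Real.log m ≤ 2 * (r * L) := by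
      have g1 := Real.log_le_log hm0 hmr
      rw [Real.log_mul (by norm_num) hy0.ne'] at g1
      have g2 : Real.log 2 ≤ Real.log y := Real.log_le_log (by norm_num) (by linarith)
      rw [hlogy] at g1 g2
      linarith
    have hlm0 : 0 < Real.log m := Real.log_pos (by linarith)
    have g3 : η * b / (2 * (r * L)) ≤ η * b / Real.log m := div_le_div_of_nonneg_left (by positivity) hlm0 hlm
    have g4 : (g : ℝ) ≤ (((Ioc m (m + b)).filter Nat.Prime).card : ℝ) :=
      (Nat.floor_le (by positivity)).trans (g3.trans hh1)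
    exact_mod_cast g4
  have hmain := mean_all hw hX H hH y M a b g (fun p hp1 hp2 => hnear p (by omega) (by omega)) hBb hgle
  rw [← hk] at hmain
  refine le_trans ?_ hmain
  -- lower bound for the quotient
  have hq : η * b / (4 * k * (r * L)) ≤ ((g / k : ℕ) : ℝ) := by
    have g1 : (g : ℝ) / k - 1 ≤ ((g / k : ℕ) : ℝ) := by
      have e1 : g < (g / k + 1) * k := by
        have := Nat.lt_mul_div_succ g hk0
        rw [mul_comm]
        exact this
      have e2 : (g : ℝ) ≤ ((g / k : ℕ) + 1 : ℝ) * k := by exact_mod_cast e1.le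
      rw [sub_le_iff_le_add, div_le_iff₀ hkr]
      exact e2
    have g2 : η * b / (2 * (r * L)) - 1 ≤ g := by
      have := Nat.lt_floor_add_one (η * b / (2 * (r * L)))
      linarith
    have g3 : (1 + 1 / (k : ℝ)) ≤ η * b / (4 * k * (r * L)) := by
      rw [le_div_iff₀ (by positivity)]
      have g4 : (1 + 1 / (k : ℝ)) * (4 * k * (r * L)) = 4 * (k + 1) * (r * L) := by
        field_simp
      rw [g4]
      have g5 : 8 * C * (k + 1) / η * (r * L) ≤ b * C := by
        rw [div_le_iff₀ hC0] at hb'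
        exact h4.trans hb'
      have g6 : 8 * C * (k + 1) / η * (r * L) = (8 * (k + 1) * (r * L) / η) * C := by ring
      rw [g6] at g5
      have g7 := le_of_mul_le_mul_right g5 hC0
      rw [div_le_iff₀ hη] at g7
      have g8 : 0 ≤ (k + 1) * (r * L) := by positivity
      linarith
    have g9 : (η * b / (2 * (r * L)) - 1) / k ≤ (g : ℝ) / k := div_le_div_of_nonneg_right g2 hkr.le
    have g10 : (η * b / (2 * (r * L)) - 1) / k = η * b / (4 * k * (r * L)) + η * b / (4 * k * (r * L)) - 1 / k := by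
      field_simp
      ring
    linarith
  have hx : η / (24 * C ^ 2 * k * r) / L ≤ 1 / (2 * a + 1 : ℝ) * ((g / k : ℕ) : ℝ) / 2 := by
    have g1 : 1 / (3 * C * w y) ≤ 1 / (2 * a + 1 : ℝ) := by
      apply one_div_le_one_div_of_le (by positivity)
      nlinarith
    have g2 : η * ((w y : ℝ) / C) / (4 * k * (r * L)) ≤ ((g / k : ℕ) : ℝ) := by
      refine le_trans ?_ hq
      gcongr
    have g3 : η / (24 * C ^ 2 * k * r) / L = 1 / (3 * C * w y) * (η * ((w y : ℝ) / C) / (4 * k * (r * L))) / 2 := by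
      field_simp
      ring
    rw [g3]
    apply div_le_div_of_nonneg_right _ (by norm_num)
    exact mul_le_mul g1 g2 (by positivity) (by positivity)
  have hp0 : (0 : ℝ) < (n : ℝ) ^ (r - 1) := by positivity
  calc (η / (24 * C ^ 2 * k * r)) ^ k * (n : ℝ) ^ (r - 1) / L ^ k = (n : ℝ) ^ (r - 1) * (η / (24 * C ^ 2 * k * r) / L) ^ k := by
        rw [div_pow _ L]
        ring
    _ ≤ M * (1 / (2 * a + 1 : ℝ) * ((g / k : ℕ) : ℝ) / 2) ^ k := by
        apply mul_le_mul w2 (pow_le_pow_left₀ (by positivity) hx _) (by positivity) (Nat.cast_nonneg _)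

/-- the almost sure statement for small displacements -/
theorem ae_I (hw : ∀ n, 4 * w n ≤ n) (hX : Displaced w P X) {C : ℝ} (hC : Comp w C)
    (hwlog : Tendsto (fun n : ℕ => (w n : ℝ) / Real.log n) atTop atTop) (H : Finset ℕ) (hH : H.Nonempty) (r : ℕ) (hr : 3 ≤ r)
    (hsmall : Tendsto (fun n : ℕ => (w (n ^ r) : ℝ) * Real.log n / (n : ℝ) ^ (r - 1)) atTop (𝓝 0)) {c : ℝ} (hc : 0 < c) :
    ∀ᵐ ω ∂P, ∀ᶠ n : ℕ in atTop,
      c * (n : ℝ) ^ (r - 1) / Real.log n ≤ (((Ioo (n ^ r) ((n + 1) ^ r)).filter Nat.Prime).card : ℝ) →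
      ((c / (24 * C ^ 2 * H.card)) ^ H.card / (2 * r) ^ (H.card - 1)) / 2 * (n : ℝ) ^ (r - 1) / Real.log n ^ H.card ≤
        tupBetween (dset X ω) H (n ^ r) ((n + 1) ^ r) := by
  have hC0 : 0 < C := by linarith [hC.1]
  have hk0 : (0 : ℝ) < H.card := by exact_mod_cast Finset.card_pos.2 hH
  have hrr : (0 : ℝ) < r := by exact_mod_cast (by omega : 0 < r)
  exact bc_general hw hX H r hr _ (by positivity) (mean_I hw hX hC hwlog H hH r hr hsmall hc)

end Pool.Agent.K4H19.DQ
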